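import Mathlib

set_option autoImplicit false

namespace Pool.Agent.H338Z.Pack

open Matrix MeasureTheory

/-- Euclidean `d`-space. -/
abbrev E (d : ℕ) := EuclideanSpace ℝ (Fin d)

/-- The space of `o`-symmetric convex bodies (compact, convex, nonempty interior) in `ℝ^d`, with
the subspace topology from Mathlib's `ConvexBody`, whose distance is the Hausdorff distance. -/
abbrev Bodies (d : ℕ) :=
  {C : ConvexBody (E d) //
    (∀ x ∈ (C : Set (E d)), -x ∈ (C : Set (E d))) ∧ (interior (C : Set (E d))).Nonempty}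

variable {d : ℕ}

/-- The lattice `L = B ℤ^d` generated by the columns of the matrix `B`. -/
def lattice (B : Matrix (Fin d) (Fin d) ℝ) : Set (E d) :=
  Set.range fun z : Fin d → ℤ => WithLp.toLp 2 (B *ᵥ fun i => (z i : ℝ))

/-- `λ(C, L)`, the minimum of the norm `‖·‖_C` (Mathlib's `gauge`) on `L ∖ {o}`. -/
noncomputable def minimum (C : Bodies d) (B : Matrix (Fin d) (Fin d) ℝ) : ℝ :=
  sInf (gauge (C.1 : Set (E d)) '' (lattice B \ {0}))

/-- The density `λ^d V(C) / (2^d d(L))` of the lattice packing. -/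
noncomputable def density (C : Bodies d) (B : Matrix (Fin d) (Fin d) ℝ) : ℝ :=
  minimum C B ^ d * (volume (C.1 : Set (E d))).toReal / (2 ^ d * |B.det|)

/-- `L = B ℤ^d` is a densest lattice for `C`. -/
def IsDensest (C : Bodies d) (B : Matrix (Fin d) (Fin d) ℝ) : Prop :=
  B.det ≠ 0 ∧ ∀ B' : Matrix (Fin d) (Fin d) ℝ, B'.det ≠ 0 → density C B' ≤ density C B

/-- The union of the bodies `(λ / 2) C + l`, `l ∈ L`, of the lattice packing. -/
def packingUnion (C : Bodies d) (B : Matrix (Fin d) (Fin d) ℝ) : Set (E d) :=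
  {p | ∃ l ∈ lattice B, ∃ c ∈ (C.1 : Set (E d)), p = (minimum C B / 2) • c + l}

end Pool.Agent.H338Z.Pack
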