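import Mathlib
import Pool.Agent.Helper876.Glob

set_option autoImplicit false

namespace Pool.Agent.H338Z.Perm

open Matrix Finset Pool.Agent.Helper876

variable {d : ℕ}

/-- coordinates indexed by `Option (Fin d)`, the extra one being zero -/
def ht (x : Fin d → ℝ) : Option (Fin d) → ℝ := fun o => o.elim 0 x

@[simp] lemma ht_some (x : Fin d → ℝ) (i : Fin d) : ht x (some i) = x i := rfl
@[simp] lemma ht_none (x : Fin d → ℝ) : ht x none = 0 := rfl

lemma ht_add (x y : Fin d → ℝ) (o : Option (Fin d)) : ht (x + y) o = ht x o + ht y o := by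
  cases o <;> simp

lemma ht_smul (c : ℝ) (x : Fin d → ℝ) (o : Option (Fin d)) : ht (c • x) o = c * ht x o := by
  cases o <;> simp

lemma abs_ht_le (x : Fin d → ℝ) (o : Option (Fin d)) : |ht x o| ≤ ‖x‖ := by
  cases o with
  | none => simp
  | some i => exact norm_le_pi_norm x i

/-- facet functionals of the permutohedron -/
def psi (S : Finset (Option (Fin d))) (x : Fin d → ℝ) : ℝ :=
  (d + 1) * ∑ o ∈ S, ht x o - S.card * ∑ o, ht x o

/-- weights -/
def w (S : Finset (Option (Fin d))) : ℝ := S.card * (d + 1 - S.card)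

/-- lattice vector of a subset -/
def ind (S : Finset (Option (Fin d))) : Fin d → ℤ :=
  fun i => (if some i ∈ S then 1 else 0) - (if none ∈ S then 1 else 0)

/-- scaled permutohedron -/
def K (d : ℕ) (r : ℝ) : Set (Fin d → ℝ) := {x | ∀ S, psi S x ≤ r * w S}

lemma card_compl' (S : Finset (Option (Fin d))) : ((Sᶜ).card : ℝ) = d + 1 - S.card := by
  have h := Finset.card_add_card_compl S
  rw [Fintype.card_option, Fintype.card_fin] at h
  have : ((S.card + (Sᶜ).card : ℕ) : ℝ) = ((d + 1 : ℕ) : ℝ) := by rw [h]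
  push_cast at this
  linarith

lemma psi_add (S : Finset (Option (Fin d))) (x y : Fin d → ℝ) :
    psi S (x + y) = psi S x + psi S y := by
  simp only [psi, ht_add, Finset.sum_add_distrib]; ring

lemma psi_smul (S : Finset (Option (Fin d))) (c : ℝ) (x : Fin d → ℝ) :
    psi S (c • x) = c * psi S x := by
  simp only [psi, ht_smul, ← Finset.mul_sum]; ring

lemma psi_neg (S : Finset (Option (Fin d))) (x : Fin d → ℝ) : psi S (-x) = -psi S x := by
  rw [← neg_one_smul ℝ x, psi_smul]; ring

lemma psi_sub (S : Finset (Option (Fin d))) (x y : Fin d → ℝ) :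
    psi S (x - y) = psi S x - psi S y := by
  rw [sub_eq_add_neg, psi_add, psi_neg]; ring

lemma psi_zero (S : Finset (Option (Fin d))) : psi S (0 : Fin d → ℝ) = 0 := by
  have := psi_smul S 0 (0 : Fin d → ℝ)
  rwa [zero_smul, zero_mul] at this

lemma psi_compl (S : Finset (Option (Fin d))) (x : Fin d → ℝ) : psi Sᶜ x = -psi S x := by
  have h := Finset.sum_add_sum_compl S (ht x)
  simp only [psi, card_compl']
  have : ∑ o ∈ Sᶜ, ht x o = ∑ o, ht x o - ∑ o ∈ S, ht x o := by linarith
  rw [this]; ring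

lemma w_compl (S : Finset (Option (Fin d))) : w Sᶜ = w S := by
  simp only [w, card_compl']; ring

lemma w_eq (S : Finset (Option (Fin d))) : w S = S.card * (Sᶜ).card := by
  rw [w, card_compl']

lemma w_nonneg (S : Finset (Option (Fin d))) : 0 ≤ w S := by
  rw [w_eq]; positivity

lemma w_le (S : Finset (Option (Fin d))) : w S ≤ (d + 1) ^ 2 := by
  have h1 : (0 : ℝ) ≤ (Sᶜ).card := by positivity
  have h2 : (0 : ℝ) ≤ S.card := by positivity
  rw [card_compl'] at h1
  unfold w
  nlinarith

lemma psi_continuous (S : Finset (Option (Fin d))) : Continuous (psi S : (Fin d → ℝ) → ℝ) := by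
  have : ∀ o, Continuous fun x : Fin d → ℝ => ht x o := by
    intro o
    cases o with
    | none => exact continuous_const
    | some i => exact continuous_apply i
  unfold psi
  fun_prop

lemma dsum (S : Finset (Option (Fin d))) (f : Option (Fin d) → ℝ) :
    ∑ a ∈ S, ∑ b ∈ Sᶜ, (f a - f b) = (d + 1) * ∑ o ∈ S, f o - S.card * ∑ o, f o := by
  have h := Finset.sum_add_sum_compl S f
  simp only [Finset.sum_sub_distrib, Finset.sum_const, nsmul_eq_mul, ← Finset.mul_sum,
    card_compl']
  rw [← h]; ring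

lemma psi_eq (S : Finset (Option (Fin d))) (x : Fin d → ℝ) :
    psi S x = ∑ a ∈ S, ∑ b ∈ Sᶜ, (ht x a - ht x b) := by
  rw [dsum]; rfl

lemma dsum_const (S : Finset (Option (Fin d))) (c : ℝ) :
    ∑ _a ∈ S, ∑ _b ∈ Sᶜ, c = c * w S := by
  simp only [Finset.sum_const, nsmul_eq_mul, w_eq]; ring

lemma psi_le_norm (S : Finset (Option (Fin d))) (x : Fin d → ℝ) : psi S x ≤ 2 * ‖x‖ * w S := by
  rw [psi_eq, ← dsum_const]
  refine Finset.sum_le_sum fun a _ => Finset.sum_le_sum fun b _ => ?_
  linarith [abs_le.1 (abs_ht_le x a), abs_le.1 (abs_ht_le x b)]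

lemma w_pos_iff (S : Finset (Option (Fin d))) : 0 < w S ↔ S.Nonempty ∧ (Sᶜ).Nonempty := by
  rw [w_eq, ← Finset.card_pos, ← Finset.card_pos]
  constructor
  · intro h
    constructor
    · by_contra h0
      have : S.card = 0 := by omega
      rw [this] at h; simp at h
    · by_contra h0
      have : (Sᶜ).card = 0 := by omega
      rw [this] at h; simp at h
  · rintro ⟨h1, h2⟩
    have : (0 : ℝ) < S.card := by exact_mod_cast h1
    have : (0 : ℝ) < (Sᶜ).card := by exact_mod_cast h2
    positivity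

lemma psi_of_w {S : Finset (Option (Fin d))} (h : ¬ 0 < w S) (x : Fin d → ℝ) : psi S x = 0 := by
  have h0 : w S = 0 := le_antisymm (not_lt.1 h) (w_nonneg S)
  have h1 := psi_le_norm S x
  have h2 := psi_le_norm S (-x)
  rw [h0, mul_zero] at h1 h2
  rw [psi_neg] at h2
  linarith

lemma w_ge {S : Finset (Option (Fin d))} (h : 0 < w S) : (d : ℝ) ≤ w S := by
  obtain ⟨h1, h2⟩ := (w_pos_iff S).1 h
  have a1 : (1 : ℝ) ≤ S.card := by exact_mod_cast Finset.card_pos.2 h1
  have a2 : (1 : ℝ) ≤ (Sᶜ).card := by exact_mod_cast Finset.card_pos.2 h2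
  rw [card_compl'] at a2
  unfold w
  nlinarith

lemma w_single (a : Option (Fin d)) : w ({a} : Finset (Option (Fin d))) = d := by
  simp [w]

lemma ht_ind (S : Finset (Option (Fin d))) (o : Option (Fin d)) :
    ht (cast (ind S)) o = (if o ∈ S then 1 else 0) - (if none ∈ S then 1 else 0) := by
  cases o with
  | none => simp
  | some i => simp [ind]

lemma psi_ind (T S : Finset (Option (Fin d))) :
    psi T (cast (ind S)) =
      ∑ a ∈ T, ∑ b ∈ Tᶜ, ((if a ∈ S then (1:ℝ) else 0) - (if b ∈ S then 1 else 0)) := by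
  rw [psi_eq]
  refine Finset.sum_congr rfl fun a _ => Finset.sum_congr rfl fun b _ => ?_
  rw [ht_ind, ht_ind]; ring

lemma psi_ind' (T S : Finset (Option (Fin d))) :
    psi T (cast (ind S)) = (d + 1) * (T ∩ S).card - T.card * S.card := by
  rw [psi_ind, dsum]
  simp [Finset.sum_ite_mem]

lemma psi_ind_self (S : Finset (Option (Fin d))) : psi S (cast (ind S)) = w S := by
  rw [psi_ind', Finset.inter_self, w]; ring

lemma dsum_le {T : Finset (Option (Fin d))} {f : Option (Fin d) → Option (Fin d) → ℝ}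
    (h : ∀ a ∈ T, ∀ b ∈ Tᶜ, f a b ≤ 1) {a0 b0 : Option (Fin d)} (ha : a0 ∈ T) (hb : b0 ∈ Tᶜ)
    (h0 : f a0 b0 ≤ 0) : ∑ a ∈ T, ∑ b ∈ Tᶜ, f a b ≤ w T - 1 := by
  have h1 : ∑ a ∈ T, ∑ b ∈ Tᶜ, (1 - f a b) = w T - ∑ a ∈ T, ∑ b ∈ Tᶜ, f a b := by
    simp only [Finset.sum_sub_distrib]
    rw [dsum_const, one_mul]
  have h2 : 1 - f a0 b0 ≤ ∑ b ∈ Tᶜ, (1 - f a0 b) :=
    Finset.single_le_sum (f := fun b => 1 - f a0 b) (fun b hb => sub_nonneg.2 (h a0 ha b hb)) hb
  have h3 : ∑ b ∈ Tᶜ, (1 - f a0 b) ≤ ∑ a ∈ T, ∑ b ∈ Tᶜ, (1 - f a b) :=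
    Finset.single_le_sum (f := fun a => ∑ b ∈ Tᶜ, (1 - f a b))
      (fun a ha => Finset.sum_nonneg fun b hb => sub_nonneg.2 (h a ha b hb)) ha
  linarith

lemma psi_ind_ne {T S : Finset (Option (Fin d))} (hT : 0 < w T) (h : T ≠ S) :
    psi T (cast (ind S)) ≤ w T - 1 := by
  obtain ⟨⟨a1, ha1⟩, ⟨b1, hb1⟩⟩ := (w_pos_iff T).1 hT
  rw [psi_ind]
  have hle : ∀ a ∈ T, ∀ b ∈ Tᶜ,
      ((if a ∈ S then (1:ℝ) else 0) - (if b ∈ S then 1 else 0)) ≤ 1 := by
    intro a _ b _
    split_ifs <;> norm_num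
  by_cases h1 : ∃ a ∈ T, a ∉ S
  · obtain ⟨a, ha, haS⟩ := h1
    refine dsum_le hle ha hb1 ?_
    rw [if_neg haS]; split_ifs <;> norm_num
  · push Not at h1
    have : ∃ b ∈ S, b ∉ T := by
      by_contra h2
      push Not at h2
      exact h (Finset.Subset.antisymm h1 h2)
    obtain ⟨b, hb, hbT⟩ := this
    refine dsum_le hle ha1 (Finset.mem_compl.2 hbT) ?_
    rw [if_pos hb]; split_ifs <;> norm_num

lemma psi_single (a : Option (Fin d)) (x : Fin d → ℝ) :
    psi {a} x = (d + 1) * ht x a - ∑ o, ht x o := by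
  simp [psi]

lemma sum_psi_single (x : Fin d → ℝ) : ∑ a, psi {a} x = 0 := by
  simp only [psi_single, Finset.sum_sub_distrib, ← Finset.mul_sum, Finset.sum_const,
    Finset.card_univ, Fintype.card_option, Fintype.card_fin, nsmul_eq_mul]
  push_cast; ring

lemma norm_le_of_single {x : Fin d → ℝ} {μ : ℝ} (h : ∀ a, -μ ≤ psi {a} x) : ‖x‖ ≤ μ := by
  have hd : (0 : ℝ) < d + 1 := by positivity
  have hup : ∀ a, psi {a} x ≤ d * μ := by
    intro a
    have h1 : psi {a} x + μ ≤ ∑ b, (psi {b} x + μ) :=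
      Finset.single_le_sum (f := fun b => psi {b} x + μ) (fun b _ => by linarith [h b])
        (Finset.mem_univ a)
    rw [Finset.sum_add_distrib, sum_psi_single] at h1
    simp only [Finset.sum_const, Finset.card_univ, Fintype.card_option, Fintype.card_fin,
      nsmul_eq_mul] at h1
    push_cast at h1
    linarith
  have hμ : 0 ≤ μ := by
    have h1 := h none
    have h2 := hup none
    nlinarith
  rw [pi_norm_le_iff_of_nonneg hμ]
  intro i
  have h1 : (d + 1) * x i = psi {some i} x - psi {none} x := by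
    rw [psi_single, psi_single]; simp
  rw [Real.norm_eq_abs, abs_le]
  have a1 := h (some i)
  have a2 := h none
  have a3 := hup (some i)
  have a4 := hup none
  constructor
  · by_contra hc
    push Not at hc
    nlinarith
  · by_contra hc
    push Not at hc
    nlinarith

lemma K_norm {r : ℝ} {x : Fin d → ℝ} (hx : x ∈ K d r) : ‖x‖ ≤ r * d := by
  refine norm_le_of_single fun a => ?_
  have := hx {a}ᶜ
  rw [psi_compl, w_compl, w_single] at this
  linarith

lemma K_sub {a b : ℝ} {x y : Fin d → ℝ} (hx : x ∈ K d a) (hy : y ∈ K d b) :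
    x - y ∈ K d (a + b) := by
  intro S
  have h1 := hx S
  have h2 := hy Sᶜ
  rw [psi_compl, w_compl] at h2
  rw [psi_sub]; linarith

lemma K_add {a b : ℝ} {x y : Fin d → ℝ} (hx : x ∈ K d a) (hy : y ∈ K d b) :
    x + y ∈ K d (a + b) := by
  intro S
  rw [psi_add]; linarith [hx S, hy S]

lemma K_mono {a b : ℝ} (h : a ≤ b) : K d a ⊆ K d b := fun _ hx S =>
  (hx S).trans (mul_le_mul_of_nonneg_right h (w_nonneg S))

lemma mem_K_of_norm {a : ℝ} {x : Fin d → ℝ} (h : 2 * ‖x‖ ≤ a) : x ∈ K d a := fun S =>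
  (psi_le_norm S x).trans (mul_le_mul_of_nonneg_right h (w_nonneg S))

lemma K_smul {a c : ℝ} (hc : 0 ≤ c) {x : Fin d → ℝ} (hx : x ∈ K d a) : c • x ∈ K d (c * a) := by
  intro S
  rw [psi_smul, mul_assoc]
  exact mul_le_mul_of_nonneg_left (hx S) hc

lemma K_closed (r : ℝ) : IsClosed (K d r) := by
  have : K d r = ⋂ S, {x | psi S x ≤ r * w S} := by ext x; simp [K]
  rw [this]
  exact isClosed_iInter fun S => isClosed_le (psi_continuous S) continuous_const

/-- nonzero lattice vectors are facet vectors or lie well outside -/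
lemma int_argmax {z : Fin d → ℤ} (hz : z ≠ 0) :
    ∃ S, 0 < w S ∧ (w S + 1 ≤ psi S (cast z) ∨ z = ind S) := by
  classical
  let f : Option (Fin d) → ℤ := fun o => o.elim 0 z
  have hf : ∀ o, ht (cast z) o = (f o : ℝ) := by
    intro o; cases o <;> simp [f]
  obtain ⟨a0, -, ha0⟩ := Finset.exists_max_image Finset.univ f ⟨none, Finset.mem_univ _⟩
  let S : Finset (Option (Fin d)) := Finset.univ.filter fun o => f o = f a0
  have hS : ∀ o, o ∈ S ↔ f o = f a0 := by intro o; simp [S]
  have hSc : ∀ o, o ∉ S → f o + 1 ≤ f a0 := by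
    intro o ho
    have h1 := ha0 o (Finset.mem_univ _)
    have h2 : f o ≠ f a0 := fun h => ho ((hS o).2 h)
    omega
  have hw : 0 < w S := by
    rw [w_pos_iff]
    refine ⟨⟨a0, (hS a0).2 rfl⟩, ?_⟩
    by_contra h
    rw [Finset.not_nonempty_iff_eq_empty, Finset.compl_eq_empty_iff] at h
    apply hz
    funext i
    have h1 := (hS (some i)).1 (h ▸ Finset.mem_univ _)
    have h2 := (hS none).1 (h ▸ Finset.mem_univ _)
    have h3 : f (some i) = f none := h1.trans h2.symm
    exact h3
  refine ⟨S, hw, ?_⟩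
  by_cases hall : ∀ o, o ∉ S → f o + 1 = f a0
  · right
    have key : ∀ o, f o = f a0 - 1 + (if o ∈ S then 1 else 0) := by
      intro o
      split_ifs with h
      · rw [(hS o).1 h]; ring
      · have := hall o h; omega
    funext i
    have h1 := key (some i)
    have h2 := key none
    have h3 : f (some i) = z i := rfl
    have h4 : f none = 0 := rfl
    unfold ind
    omega
  · left
    push Not at hall
    obtain ⟨b, hb, hb2⟩ := hall
    have hb3 : f b + 2 ≤ f a0 := by have := hSc b hb; omega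
    have := dsum_le (T := S) (f := fun a b => 2 - (ht (cast z) a - ht (cast z) b)) (by
      intro a ha b hb
      have h1 := (hS a).1 ha
      have h2 := hSc b (Finset.mem_compl.1 hb)
      have h3 : ((f b : ℤ) : ℝ) + 1 ≤ (f a : ℝ) := by rw [h1]; exact_mod_cast h2
      simp only [hf]; linarith) ((hS a0).2 rfl) (Finset.mem_compl.2 hb) (by
      have h3 : ((f b : ℤ) : ℝ) + 2 ≤ (f a0 : ℝ) := by exact_mod_cast hb3
      simp only [hf]; linarith)
    rw [psi_eq]
    simp only [Finset.sum_sub_distrib (f := fun _ => (2 : ℝ))] at this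
    rw [Finset.sum_sub_distrib, dsum_const] at this
    linarith

lemma sum_ind (S : Finset (Option (Fin d))) :
    ∑ i, ind S i = S.card - (if none ∈ S then (d + 1 : ℤ) else 0) := by
  have h : (S.card : ℤ) = ∑ o : Option (Fin d), (if o ∈ S then (1 : ℤ) else 0) := by
    simp [Finset.sum_ite_mem]
  rw [h, Fintype.sum_option]
  simp only [ind, Finset.sum_sub_distrib, Finset.sum_const, Finset.card_univ, Fintype.card_fin,
    nsmul_eq_mul]
  split_ifs <;> ring

lemma norm_ind (S : Finset (Option (Fin d))) : ‖cast (ind S)‖ ≤ 1 := by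
  rw [pi_norm_le_iff_of_nonneg zero_le_one]
  intro i
  rw [Real.norm_eq_abs, cast_apply]
  unfold ind
  split_ifs <;> simp

/-- the quadratic form of `A_d^*` -/
def qf (x : Fin d → ℝ) : ℝ := (d + 1) * ∑ o, ht x o ^ 2 - (∑ o, ht x o) ^ 2

lemma sq_le_qf (x : Fin d → ℝ) : ∑ i, x i ^ 2 ≤ qf x := by
  have := sq_sum_le_card_mul_sum_sq (s := (Finset.univ : Finset (Fin d))) (f := x)
  simp only [Finset.card_univ, Fintype.card_fin] at this
  simp only [qf, Fintype.sum_option, ht_none, ht_some]
  nlinarith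

lemma qf_sub_ind (y : Fin d → ℝ) (S : Finset (Option (Fin d))) :
    qf (y - cast (ind S)) = qf y - 2 * psi S y + w S := by
  set c : ℝ := if none ∈ S then 1 else 0 with hc
  have h1 : ∀ o, ht (y - cast (ind S)) o = ht y o - (if o ∈ S then 1 else 0) + c := by
    intro o
    have := ht_ind S o
    cases o with
    | none => simp [hc]
    | some i =>
      simp only [ht_some] at this
      simp only [ht_some, Pi.sub_apply, this]; ring
  have h2 : ∀ o, (ht y o - (if o ∈ S then 1 else 0) + c) ^ 2 = ht y o ^ 2 + 2 * c * ht y o + c ^ 2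
      + (if o ∈ S then 1 - 2 * c - 2 * ht y o else 0) := by
    intro o; split_ifs <;> ring
  simp only [qf, h1, h2, psi, w, Finset.sum_add_distrib, Finset.sum_sub_distrib,
    Finset.sum_ite_mem, Finset.univ_inter, Finset.sum_const, Finset.card_univ,
    Fintype.card_option, Fintype.card_fin, nsmul_eq_mul, ← Finset.mul_sum]
  push_cast; ring

/-- the permutohedron covers space -/
lemma cover (x : Fin d → ℝ) : ∃ z : Fin d → ℤ, x - cast z ∈ K d (1 / 2) := by
  classical
  let f : (Fin d → ℤ) → ℝ := fun z => qf (x - cast z)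
  have hnn : ∀ y : Fin d → ℝ, ∀ i, y i ^ 2 ≤ qf y := fun y i =>
    (Finset.single_le_sum (f := fun i => y i ^ 2) (fun i _ => sq_nonneg _)
      (Finset.mem_univ i)).trans (sq_le_qf y)
  have h0 : 0 ≤ f 0 := (Finset.sum_nonneg fun i _ => sq_nonneg _).trans (sq_le_qf _)
  have hfin : {z : Fin d → ℤ | f z ≤ f 0}.Finite := by
    have hsub : {z : Fin d → ℤ | f z ≤ f 0} ⊆
        Set.Icc (fun i => ⌊x i - (f 0 + 1)⌋) (fun i => ⌈x i + (f 0 + 1)⌉) := by
      intro z hz
      have hz' : f z ≤ f 0 := hz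
      have hi : ∀ i, |x i - z i| ≤ f 0 + 1 := by
        intro i
        have h1 := hnn (x - cast z) i
        simp only [Pi.sub_apply, cast_apply] at h1
        have h2 : (x i - z i) ^ 2 ≤ f 0 := h1.trans hz'
        rw [← sq_abs] at h2
        by_contra h
        push Not at h
        nlinarith [abs_nonneg (x i - z i)]
      rw [Set.mem_Icc]
      constructor
      · intro i
        have := (abs_le.1 (hi i)).2
        apply Int.floor_le_iff.2
        linarith
      · intro i
        have := (abs_le.1 (hi i)).1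
        apply Int.le_ceil_iff.2
        linarith
    exact (Set.finite_Icc _ _).subset hsub
  obtain ⟨z, hz, hmin⟩ := Set.exists_min_image _ f hfin ⟨0, show f 0 ≤ f 0 from le_rfl⟩
  have hmin' : ∀ w, f z ≤ f w := by
    intro w
    by_cases hw : f w ≤ f 0
    · exact hmin w hw
    · push Not at hw
      exact (hmin 0 (show f 0 ≤ f 0 from le_rfl)).trans hw.le
  refine ⟨z, fun S => ?_⟩
  have h1 := hmin' (z + ind S)
  have h2 : f (z + ind S) = qf (x - cast z - cast (ind S)) := by
    simp only [f, cast_add]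
    congr 1; abel
  rw [h2, qf_sub_ind] at h1
  have h3 : f z = qf (x - cast z) := rfl
  linarith

end Pool.Agent.H338Z.Perm
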