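import Mathlib
import Pool.Agent.H338Z.Perm.Psi

set_option autoImplicit false

namespace Pool.Agent.H338Z.Perm

open Matrix Finset MeasureTheory Module Pool.Agent.Helper876
open scoped Pointwise ENNReal Topology

variable {d : ℕ}

/-- basic properties of a gauge -/
structure IsN (c : ℝ) (g : (Fin d → ℝ) → ℝ) : Prop where
  pos : 0 < c
  smul : ∀ (a : ℝ) (x : Fin d → ℝ), 0 ≤ a → g (a • x) = a * g x
  nonneg : ∀ x, 0 ≤ g x
  norm_le : ∀ x, ‖x‖ ≤ c * g x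

variable {c : ℝ} {g : (Fin d → ℝ) → ℝ}

lemma bddBelow' (hg : IsN c g) (B : Matrix (Fin d) (Fin d) ℝ) :
    BddBelow (Set.range fun z : {z : Fin d → ℤ // z ≠ 0} => g (B *ᵥ cast z.1)) :=
  ⟨0, by rintro _ ⟨z, rfl⟩; exact hg.nonneg _⟩

lemma minN_le' (hg : IsN c g) (B : Matrix (Fin d) (Fin d) ℝ) {z : Fin d → ℤ}
    (hz : z ≠ 0) : minN g B ≤ g (B *ᵥ cast z) :=
  ciInf_le (bddBelow' hg B) (⟨z, hz⟩ : {z : Fin d → ℤ // z ≠ 0})

lemma minN_pos' (hg : IsN c g) (hd : 1 ≤ d) {B : Matrix (Fin d) (Fin d) ℝ}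
    (hB : B.det ≠ 0) : 0 < minN g B := by
  have hne := nonempty_ne hd
  have hBu : IsUnit B.det := isUnit_iff_ne_zero.2 hB
  set C : ℝ := ‖(Matrix.toLin' B⁻¹).toContinuousLinearMap‖ with hC
  have hC0 : 0 ≤ C := norm_nonneg _
  have h1 : ∀ z : Fin d → ℤ, z ≠ 0 → 1 ≤ (C + 1) * ‖B *ᵥ cast z‖ := by
    intro z hz
    have h2 := (Matrix.toLin' B⁻¹).toContinuousLinearMap.le_opNorm (B *ᵥ cast z)
    have h3 : (Matrix.toLin' B⁻¹).toContinuousLinearMap (B *ᵥ cast z) = cast z := by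
      show (Matrix.toLin' B⁻¹) (B *ᵥ cast z) = cast z
      rw [Matrix.toLin'_apply, Matrix.mulVec_mulVec, Matrix.nonsing_inv_mul _ hBu,
        Matrix.one_mulVec]
    rw [h3] at h2
    have h4 := one_le_norm_cast hz
    have h5 := norm_nonneg (B *ᵥ cast z)
    nlinarith
  have hc := hg.pos
  have hpos : 0 < 1 / (c * (C + 1)) := by positivity
  refine lt_of_lt_of_le hpos ?_
  refine le_ciInf fun z => ?_
  have h6 := h1 z.1 z.2
  have h7 := hg.norm_le (B *ᵥ cast z.1)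
  rw [div_le_iff₀ (by positivity)]
  calc 1 ≤ (C + 1) * ‖B *ᵥ cast z.1‖ := h6
    _ ≤ (C + 1) * (c * g (B *ᵥ cast z.1)) := by gcongr
    _ = _ := by ring

lemma minN_smul' (hg : IsN c g) {a : ℝ} (hc : 0 ≤ a) (B : Matrix (Fin d) (Fin d) ℝ) :
    minN g (a • B) = a * minN g B := by
  unfold minN
  rw [Real.mul_iInf_of_nonneg hc]
  congr 1
  funext z
  rw [Matrix.smul_mulVec, hg.smul _ _ hc]

lemma adm_normalise' (hg : IsN c g) (hd : 1 ≤ d) {B : Matrix (Fin d) (Fin d) ℝ}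
    (hB : B.det ≠ 0) : Adm g ((minN g B)⁻¹ • B) := by
  intro z hz
  have hpos := minN_pos' hg hd hB
  rw [Matrix.smul_mulVec, hg.smul _ _ (inv_nonneg.2 hpos.le), le_inv_mul_iff₀ hpos, mul_one]
  exact minN_le' hg B hz

lemma det_normalise' (hg : IsN c g) (hd : 1 ≤ d) {B : Matrix (Fin d) (Fin d) ℝ}
    (hB : B.det ≠ 0) : minN g B ^ d / |B.det| = 1 / |((minN g B)⁻¹ • B).det| := by
  have hpos := minN_pos' hg hd hB
  rw [Matrix.det_smul, Fintype.card_fin, abs_mul, abs_of_pos (pow_pos (inv_pos.2 hpos) d)]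
  have : |B.det| ≠ 0 := abs_ne_zero.2 hB
  have h2 : minN g B ^ d ≠ 0 := (pow_pos hpos d).ne'
  rw [inv_pow]
  field_simp

/-- a densest lattice, normalised, has determinant at most that of any admissible lattice -/
lemma dens_det_le' (hg : IsN c g) (hd : 1 ≤ d) {B B' : Matrix (Fin d) (Fin d) ℝ}
    (hB : IsDens g B) (hB' : B'.det ≠ 0) (hadm : Adm g B') :
    |((minN g B)⁻¹ • B).det| ≤ |B'.det| := by
  have h1 := hB.2 B' hB'
  rw [det_normalise' hg hd hB.1] at h1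
  have hpos := minN_pos' hg hd hB.1
  have h2 : 1 / |B'.det| ≤ minN g B' ^ d / |B'.det| := by
    gcongr
    exact one_le_pow₀ (one_le_minN hd hadm)
  have h3 : ((minN g B)⁻¹ • B).det ≠ 0 := by
    rw [Matrix.det_smul]
    exact mul_ne_zero (pow_ne_zero _ (inv_ne_zero hpos.ne')) hB.1
  have h4 : 0 < |((minN g B)⁻¹ • B).det| := abs_pos.2 h3
  have h5 : 0 < |B'.det| := abs_pos.2 hB'
  exact (one_div_le_one_div h5 h4).1 (h2.trans h1)

lemma isDens_of_min' (hg : IsN c g) (hd : 1 ≤ d) {B : Matrix (Fin d) (Fin d) ℝ}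
    (hB : B.det ≠ 0) (hadm : Adm g B)
    (hmin : ∀ B' : Matrix (Fin d) (Fin d) ℝ, B'.det ≠ 0 → Adm g B' → |B.det| ≤ |B'.det|) :
    IsDens g B := by
  refine ⟨hB, fun B' hB' => ?_⟩
  have hpos := minN_pos' hg hd hB'
  have h3 : ((minN g B')⁻¹ • B').det ≠ 0 := by
    rw [Matrix.det_smul]
    exact mul_ne_zero (pow_ne_zero _ (inv_ne_zero hpos.ne')) hB'
  rw [det_normalise' hg hd hB']
  have h1 := hmin _ h3 (adm_normalise' hg hd hB')
  have h5 : 0 < |B.det| := abs_pos.2 hB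
  calc 1 / |((minN g B')⁻¹ • B').det| ≤ 1 / |B.det| := one_div_le_one_div_of_le h5 h1
    _ ≤ minN g B ^ d / |B.det| := by
        gcongr
        exact one_le_pow₀ (one_le_minN hd hadm)

end Pool.Agent.H338Z.Perm
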