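import Mathlib
import Pool.Agent.H338Z.Perm.Psi

set_option autoImplicit false

namespace Pool.Agent.H338Z.Perm

open Matrix Finset MeasureTheory Module Pool.Agent.Helper876 Topology Filter
open scoped Pointwise ENNReal

variable {d : ℕ}

lemma cast_zero' : cast (0 : Fin d → ℤ) = 0 := by funext i; simp

lemma volume_K_ge {r : ℝ} (hr : 0 < r) : ENNReal.ofReal (r ^ d) ≤ volume (K d (r / 2)) := by
  have h1 : r • K d (1 / 2) ⊆ K d (r / 2) := by
    rintro _ ⟨y, hy, rfl⟩
    have := K_smul hr.le hy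
    rwa [show r * (1 / 2) = r / 2 by ring] at this
  refine le_trans ?_ (measure_mono h1)
  rw [Measure.addHaar_smul]
  simp only [finrank_fintype_fun_eq_card, Fintype.card_fin, abs_pow, abs_of_pos hr]
  calc ENNReal.ofReal (r ^ d) = ENNReal.ofReal (r ^ d) * 1 := (mul_one _).symm
    _ ≤ _ := by gcongr; exact one_le_volume cover

lemma det_ge' {B : Matrix (Fin d) (Fin d) ℝ} (hB : B.det ≠ 0) {r : ℝ} (hr : 0 < r)
    (h1 : ∀ z : Fin d → ℤ, z ≠ 0 → B *ᵥ cast z ∉ K d r) : r ^ d ≤ |B.det| := by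
  by_contra hlt
  push Not at hlt
  have h2 : ENNReal.ofReal |B.det| < volume (K d (r / 2)) := by
    refine lt_of_lt_of_le ?_ (volume_K_ge hr)
    exact (ENNReal.ofReal_lt_ofReal_iff (by positivity)).2 hlt
  obtain ⟨z, hz, x, hx, y, hy, hxy⟩ := blichfeldt hB (K_closed _).measurableSet h2
  apply h1 z hz
  have := K_sub hx hy
  rwa [hxy, add_halves] at this

lemma approx_cover' {B : Matrix (Fin d) (Fin d) ℝ} (hB : B.det ≠ 0) {r η : ℝ} (hr : 0 < r)
    (hη : 0 < η) (hηr : 4 * η ≤ r)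
    (h1 : ∀ z : Fin d → ℤ, z ≠ 0 → B *ᵥ cast z ∉ K d r)
    (hdet : |B.det| < r ^ d + (2 * η) ^ d) (x : Fin d → ℝ) :
    ∃ z : Fin d → ℤ, x - B *ᵥ cast z ∈ K d (r / 2 + 2 * η) := by
  by_contra hcon
  push Not at hcon
  have hnear : ∀ v ∈ Metric.closedBall x η, x - v ∈ K d (2 * η) := by
    intro v hv
    rw [Metric.mem_closedBall, dist_comm, dist_eq_norm] at hv
    exact mem_K_of_norm (by linarith)
  set S : Set (Fin d → ℝ) := K d (r / 2) ∪ Metric.closedBall x η with hS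
  have hSm : MeasurableSet S :=
    (K_closed _).measurableSet.union Metric.isClosed_closedBall.measurableSet
  have hdisj : Disjoint (K d (r / 2)) (Metric.closedBall x η) := by
    rw [Set.disjoint_left]
    intro y hy hyx
    apply hcon 0
    rw [cast_zero', Matrix.mulVec_zero, sub_zero]
    have := K_add hy (hnear y hyx)
    rwa [add_sub_cancel] at this
  have hvolb : volume (Metric.closedBall x η) = ENNReal.ofReal ((2 * η) ^ d) := by
    rw [Real.volume_pi_closedBall _ hη.le]; simp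
  have hvol : ENNReal.ofReal |B.det| < volume S := by
    rw [hS, measure_union hdisj Metric.isClosed_closedBall.measurableSet, hvolb]
    refine lt_of_lt_of_le ?_ (add_le_add_left (volume_K_ge hr) _)
    rw [← ENNReal.ofReal_add (by positivity) (by positivity)]
    exact (ENNReal.ofReal_lt_ofReal_iff (by positivity)).2 hdet
  obtain ⟨z, hz, u, hu, v, hv, huv⟩ := blichfeldt hB hSm hvol
  have hz1 := h1 z hz
  rcases hu with hu | hu <;> rcases hv with hv | hv
  · apply hz1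
    have := K_sub hu hv
    rwa [huv, add_halves] at this
  · apply hcon (-z)
    have h0 : cast (-z) = - cast z := by funext i; simp
    rw [h0, Matrix.mulVec_neg, ← huv]
    have h2 : x - -(u - v) = u + (x - v) := by abel
    rw [h2]
    exact K_add hu (hnear v hv)
  · apply hcon z
    rw [← huv]
    have h2 : x - (u - v) = v + (x - u) := by abel
    rw [h2]
    exact K_add hv (hnear u hu)
  · apply hz1
    have := K_sub (hnear v hv) (hnear u hu)
    have h2 : x - v - (x - u) = u - v := by abel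
    rw [h2, huv] at this
    exact K_mono (by linarith) this

lemma chain {V W : Type*} [NormedAddCommGroup V] [NormedSpace ℝ V] {D : Set V} (hD : Convex ℝ D)
    (R : V → W → Prop) (h1 : ∀ x ∈ D, ∃ l, R x l) {δ : ℝ} (hδ : 0 < δ)
    (h2 : ∀ x ∈ D, ∀ x' ∈ D, ‖x - x'‖ < δ → ∀ l l', R x l → R x' l' → l = l')
    (hne : D.Nonempty) : ∃ l, ∀ x ∈ D, R x l := by
  choose f hf using h1
  let F : D → W := fun x => f x.1 x.2
  have hF : IsLocallyConstant F := by
    rw [IsLocallyConstant.iff_eventually_eq]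
    intro x
    filter_upwards [Metric.ball_mem_nhds x hδ] with y hy
    refine h2 y.1 y.2 x.1 x.2 ?_ _ _ (hf _ _) (hf _ _)
    rw [Metric.mem_ball, Subtype.dist_eq, dist_eq_norm] at hy
    exact hy
  have : PreconnectedSpace D := Subtype.preconnectedSpace hD.isPreconnected
  obtain ⟨x0, hx0⟩ := hne
  refine ⟨F ⟨x0, hx0⟩, fun x hx => ?_⟩
  rw [← hF.apply_eq_of_preconnectedSpace ⟨x, hx⟩ ⟨x0, hx0⟩]
  exact hf x hx

lemma psi_erase {T : Finset (Option (Fin d))} {a : Option (Fin d)} (ha : a ∈ T)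
    (y : Fin d → ℝ) : psi T y = psi (T.erase a) y + psi {a} y := by
  have h1 := Finset.add_sum_erase T (ht y) ha
  have h2 : ((T.erase a).card : ℝ) + 1 = T.card := by
    exact_mod_cast Finset.card_erase_add_one ha
  rw [psi_single]
  simp only [psi]
  rw [← h1, ← h2]; ring

lemma w_erase {T : Finset (Option (Fin d))} {a : Option (Fin d)} (ha : a ∈ T) :
    w (T.erase a) = w T + d - 2 * (Tᶜ).card := by
  have h2 : ((T.erase a).card : ℝ) = T.card - 1 := by
    have : ((T.erase a).card : ℝ) + 1 = T.card := by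
      exact_mod_cast Finset.card_erase_add_one ha
    linarith
  simp only [w, card_compl', h2]; ring

lemma belt1 {σ : ℝ} (hσ : 0 ≤ σ) {a : Option (Fin d)} {y : Fin d → ℝ}
    (hy : y ∈ K d (1 / 2 + σ)) (hya : psi {a} y ≤ -(1 / 2 - 4 * σ) * d)
    {T : Finset (Option (Fin d))} (hT : 0 < w T) (ha : a ∈ T) :
    psi T y ≤ w T / 2 - 1 + 5 * σ * (d + 1) ^ 2 := by
  have h1 := hy (T.erase a)
  have h2 := w_le (T.erase a)
  have h3 : (1 : ℝ) ≤ (Tᶜ).card := by
    exact_mod_cast Finset.card_pos.2 ((w_pos_iff T).1 hT).2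
  have h4 := w_erase ha
  have h5 : σ * w (T.erase a) ≤ σ * (d + 1) ^ 2 := mul_le_mul_of_nonneg_left h2 hσ
  have h6 : σ * d ≤ σ * (d + 1) ^ 2 := mul_le_mul_of_nonneg_left (by nlinarith) hσ
  rw [psi_erase ha]
  nlinarith

lemma belt {σ : ℝ} (hσ : 0 ≤ σ) {a : Option (Fin d)} {y y' : Fin d → ℝ}
    (hy : y ∈ K d (1 / 2 + σ)) (hya : psi {a} y ≤ -(1 / 2 - 4 * σ) * d)
    (hy' : y' ∈ K d (1 / 2 + σ)) (hya' : psi {a} y' ≤ -(1 / 2 - 4 * σ) * d)
    {T : Finset (Option (Fin d))} (hT : 0 < w T) :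
    psi T (y - y') ≤ w T - 1 + 6 * σ * (d + 1) ^ 2 := by
  have h5 : σ * w T ≤ σ * (d + 1) ^ 2 := mul_le_mul_of_nonneg_left (w_le T) hσ
  rw [psi_sub]
  by_cases ha : a ∈ T
  · have h1 := belt1 hσ hy hya hT ha
    have h2 := hy' Tᶜ
    rw [psi_compl, w_compl] at h2
    nlinarith
  · have h1 := belt1 hσ hy' hya' (T := Tᶜ) (by rwa [w_compl]) (Finset.mem_compl.2 ha)
    rw [psi_compl, w_compl] at h1
    have h2 := hy T
    nlinarith

lemma psi_e (T : Finset (Option (Fin d))) (a : Option (Fin d)) :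
    psi T (cast (ind {a})) = (if a ∈ T then (d + 1 : ℝ) else 0) - T.card := by
  rw [psi_ind']
  split_ifs with h
  · rw [Finset.inter_singleton_of_mem h]; simp
  · rw [Finset.inter_singleton_of_notMem h]; simp

lemma ridge_pt {a j : Option (Fin d)} (haj : a ≠ j) (T : Finset (Option (Fin d))) (hT : 0 < w T) :
    psi T ((d / (2 * (d + 1)) : ℝ) • (cast (ind {j}) - cast (ind {a})) + cast (ind {a}))
      ≤ w T / 2 := by
  have hd : (0 : ℝ) < d + 1 := by positivity
  have hc : (d / (2 * (d + 1)) : ℝ) * (d + 1) = d / 2 := by field_simp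
  have hw := w_ge hT
  obtain ⟨h1, h2⟩ := (w_pos_iff T).1 hT
  have a1 : (1 : ℝ) ≤ T.card := by exact_mod_cast Finset.card_pos.2 h1
  have a2 : (1 : ℝ) ≤ (Tᶜ).card := by exact_mod_cast Finset.card_pos.2 h2
  rw [card_compl'] at a2
  rw [psi_add, psi_smul, psi_sub, psi_e, psi_e]
  by_cases ha : a ∈ T <;> by_cases hj : j ∈ T
  · have : ({a, j} : Finset (Option (Fin d))) ⊆ T := by
      intro o ho
      rcases Finset.mem_insert.1 ho with h | h
      · rwa [h]
      · rwa [Finset.mem_singleton.1 h]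
    have h3 := Finset.card_le_card this
    rw [Finset.card_pair haj] at h3
    have h4 : (2 : ℝ) ≤ T.card := by exact_mod_cast h3
    simp only [if_pos ha, if_pos hj, w]
    nlinarith
  · simp only [if_pos ha, if_neg hj]
    nlinarith
  · simp only [if_neg ha, if_pos hj]
    nlinarith
  · simp only [if_neg ha, if_neg hj]
    nlinarith

lemma facet (hd : 1 ≤ d) {Λ : Set (Fin d → ℝ)} (hΛ : ∀ u ∈ Λ, ∀ v ∈ Λ, u - v ∈ Λ) {σ : ℝ}
    (hσ : 0 < σ) (hσ1 : 16 * σ * (d + 1) ^ 2 ≤ 1)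
    (h1 : ∀ l ∈ Λ, l ≠ 0 → l ∉ K d (1 - σ)) (h2 : ∀ x, ∃ l ∈ Λ, x - l ∈ K d (1 / 2 + σ))
    (a : Option (Fin d)) : ∃ l ∈ Λ, ‖l - cast (ind {a})‖ ≤ 12 * σ * (d + 1) ^ 3 := by
  have hd1 : (1 : ℝ) ≤ d := by exact_mod_cast hd
  set N : ℝ := (d + 1) ^ 2 with hN
  have hNpos : 0 < N := by positivity
  have hσw : ∀ T : Finset (Option (Fin d)), σ * w T ≤ σ * N := fun T =>
    mul_le_mul_of_nonneg_left (w_le T) hσ.le
  have hσd : 0 < σ * d := by positivity
  set e : Fin d → ℝ := cast (ind {a}) with he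
  have hea : psi {a} e = d := by rw [he, psi_ind_self, w_single]
  let D : Set (Fin d → ℝ) := {x | (1 / 2 + σ) * d < psi {a} x ∧ psi {a} x ≤ (1 / 2 + 3 * σ) * d ∧
    ∀ T, 0 < w T → T ≠ {a} → psi T x ≤ w T / 2 - 2 * σ * N}
  have hDc : Convex ℝ D := by
    intro x hx y hy s t hs ht hst
    have ht' : t = 1 - s := by linarith
    refine ⟨?_, ?_, fun T hT hTa => ?_⟩
    · rw [psi_add, psi_smul, psi_smul]
      rcases eq_or_lt_of_le hs with h | h
      · rw [ht', ← h]; simpa using hy.1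
      · have := mul_lt_mul_of_pos_left hx.1 h
        have := mul_le_mul_of_nonneg_left hy.1.le ht
        rw [ht'] at *
        nlinarith
    · rw [psi_add, psi_smul, psi_smul]
      have := mul_le_mul_of_nonneg_left hx.2.1 hs
      have := mul_le_mul_of_nonneg_left hy.2.1 ht
      rw [ht'] at *
      nlinarith
    · rw [psi_add, psi_smul, psi_smul]
      have := mul_le_mul_of_nonneg_left (hx.2.2 T hT hTa) hs
      have := mul_le_mul_of_nonneg_left (hy.2.2 T hT hTa) ht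
      rw [ht'] at *
      nlinarith
  have claimA : ∀ x ∈ D, ∀ l, l ∈ Λ → x - l ∈ K d (1 / 2 + σ) → (1 - σ) * d < psi {a} l := by
    intro x hx l hl hxl
    have hl0 : l ≠ 0 := by
      rintro rfl
      have := hxl {a}
      rw [sub_zero, w_single] at this
      linarith [hx.1]
    have := h1 l hl hl0
    simp only [K, Set.mem_setOf_eq, not_forall, not_le] at this
    obtain ⟨T, hT⟩ := this
    have hw : 0 < w T := by
      by_contra h
      rw [psi_of_w h, le_antisymm (not_lt.1 h) (w_nonneg T), mul_zero] at hT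
      exact lt_irrefl _ hT
    by_cases hTa : T = {a}
    · rwa [hTa, w_single] at hT
    · exfalso
      have h3 := hx.2.2 T hw hTa
      have h4 := hxl Tᶜ
      rw [psi_compl, w_compl, psi_sub] at h4
      have := hσw T
      nlinarith
  have hpt0 : (1 / 2 + 2 * σ) • e ∈ D := by
    refine ⟨?_, ?_, fun T hT hTa => ?_⟩
    · rw [psi_smul, hea]; nlinarith
    · rw [psi_smul, hea]; nlinarith
    · rw [psi_smul]
      have h3 := psi_ind_ne hT hTa
      have h4 := mul_le_mul_of_nonneg_left h3 (show 0 ≤ 1 / 2 + 2 * σ by positivity)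
      have := hσw T
      nlinarith
  obtain ⟨l, hl⟩ := chain hDc (fun x l => l ∈ Λ ∧ x - l ∈ K d (1 / 2 + σ))
    (fun x _ => by obtain ⟨l, a1, a2⟩ := h2 x; exact ⟨l, a1, a2⟩) (δ := 1 / (4 * N))
    (by positivity) (by
      rintro x hx x' hx' hxx l l' ⟨a1, a2⟩ ⟨b1, b2⟩
      by_contra hne
      apply h1 (l - l') (hΛ l a1 l' b1) (sub_ne_zero.2 hne)
      intro T
      by_cases hw : 0 < w T
      · have c1 := claimA x hx l a1 a2
        have c2 := claimA x' hx' l' b1 b2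
        have c3 := belt hσ.le b2 (a := a) (by rw [psi_sub]; nlinarith [hx'.2.1]) a2
          (by rw [psi_sub]; nlinarith [hx.2.1]) hw
        have c4 : l - l' = (x - x') + (x' - l' - (x - l)) := by abel
        have c5 := psi_le_norm T (x - x')
        have c6 : 2 * ‖x - x'‖ * w T ≤ 2 * (1 / (4 * N)) * N :=
          mul_le_mul (by linarith) (w_le T) (w_nonneg T) (by positivity)
        have c7 : 2 * (1 / (4 * N)) * N = 1 / 2 := by field_simp; norm_num
        have := hσw T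
        rw [c4, psi_add]
        nlinarith
      · rw [psi_of_w hw, le_antisymm (not_lt.1 hw) (w_nonneg T), mul_zero]) ⟨_, hpt0⟩
  refine ⟨l, (hl _ hpt0).1, norm_le_of_single fun j => ?_⟩
  have hcube : (d + 1 : ℝ) ^ 3 = N * (d + 1) := by rw [hN]; ring
  have hN1 : 1 ≤ N := by rw [hN]; nlinarith
  have hσN : σ ≤ σ * N := by nlinarith
  by_cases hj : a = j
  · have c1 := claimA _ hpt0 l (hl _ hpt0).1 (hl _ hpt0).2
    rw [← hj, psi_sub, hea, hcube]
    nlinarith
  · set τ : ℝ := 8 * σ * N with hτ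
    have hτ0 : 0 ≤ τ := by positivity
    have hτ1 : τ ≤ 1 / 2 := by linarith
    have hdd : (0 : ℝ) < d + 1 := by positivity
    have hc : (d / (2 * (d + 1)) : ℝ) * (d + 1) = d / 2 := by field_simp
    set p : Fin d → ℝ := (d / (2 * (d + 1)) : ℝ) • (cast (ind {j}) - e) + e with hp
    have hja : j ∉ ({a} : Finset (Option (Fin d))) := by
      rw [Finset.mem_singleton]; exact fun h => hj h.symm
    have haj : a ∉ ({j} : Finset (Option (Fin d))) := by
      rw [Finset.mem_singleton]; exact hj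
    have hpa : psi {a} p = d / 2 := by
      rw [hp, psi_add, psi_smul, psi_sub, hea, psi_e, if_neg hja, Finset.card_singleton]
      push_cast
      linarith
    have hej : psi {j} e = -1 := by
      rw [he, psi_e, if_neg haj, Finset.card_singleton]; simp
    have hpj : psi {j} p = d / 2 - 1 := by
      rw [hp, psi_add, psi_smul, psi_sub, hej, psi_ind_self, w_single]
      linarith
    have hx : (1 - τ) • p + (τ / 2 + 2 * σ) • e ∈ D := by
      refine ⟨?_, ?_, fun T hT hTa => ?_⟩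
      · rw [psi_add, psi_smul, psi_smul, hpa, hea]; nlinarith
      · rw [psi_add, psi_smul, psi_smul, hpa, hea]; nlinarith
      · rw [psi_add, psi_smul, psi_smul]
        have h3 := psi_ind_ne hT hTa
        have h4 := mul_le_mul_of_nonneg_left h3 (show 0 ≤ τ / 2 + 2 * σ by positivity)
        have h5 := mul_le_mul_of_nonneg_left (ridge_pt hj T hT) (show 0 ≤ 1 - τ by linarith)
        have := hσw T
        nlinarith
    have c1 := (hl _ hx).2 {j}
    rw [psi_sub, psi_add, psi_smul, psi_smul, hpj, hej, w_single] at c1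
    rw [psi_sub, hej, hcube]
    have c2 : σ * d ≤ σ * N * d := by nlinarith
    nlinarith

lemma ind_some (j : Fin d) : cast (ind {some j}) = fun i => (1 : Matrix (Fin d) (Fin d) ℝ) i j := by
  funext i
  simp [ind, Matrix.one_apply]

/-- Global closeness. -/
lemma near_I' (hd : 1 ≤ d) {η : ℝ} (hη : 0 < η) : ∃ σ : ℝ, 0 < σ ∧
    ∀ B : Matrix (Fin d) (Fin d) ℝ, B.det ≠ 0 →
    (∀ z : Fin d → ℤ, z ≠ 0 → B *ᵥ cast z ∉ K d (1 - σ)) → |B.det| ≤ (1 + σ) ^ d →
    ∃ Z : Matrix (Fin d) (Fin d) ℤ, IsUnit Z.det ∧ Near η (B * Z.map (fun k : ℤ => (k : ℝ))) := by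
  obtain ⟨η₁, hη₁, hdetn⟩ := det_near d (κ := 1 / 4) (by norm_num)
  obtain ⟨σ', hσ'0, hσ'1, hσ'2, hσ'3⟩ : ∃ σ' : ℝ, 0 < σ' ∧ 16 * σ' * (d + 1) ^ 2 ≤ 1 ∧
      12 * σ' * (d + 1) ^ 3 ≤ η ∧ 12 * σ' * (d + 1) ^ 3 ≤ η₁ := by
    have e1 : ∀ᶠ s : ℝ in 𝓝 0, 16 * s * (d + 1) ^ 2 < 1 :=
      ContinuousAt.eventually_lt (by fun_prop) continuousAt_const (by simp)
    have e2 : ∀ᶠ s : ℝ in 𝓝 0, 12 * s * (d + 1) ^ 3 < η :=
      ContinuousAt.eventually_lt (by fun_prop) continuousAt_const (by simpa using hη)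
    have e3 : ∀ᶠ s : ℝ in 𝓝 0, 12 * s * (d + 1) ^ 3 < η₁ :=
      ContinuousAt.eventually_lt (by fun_prop) continuousAt_const (by simpa using hη₁)
    obtain ⟨s, hs, hs0⟩ := (((e1.and (e2.and e3)).filter_mono nhdsWithin_le_nhds).and
      (self_mem_nhdsWithin (a := (0 : ℝ)) (s := Set.Ioi 0))).exists
    exact ⟨s, hs0, hs.1.le, hs.2.1.le, hs.2.2.le⟩
  have hσ'4 : σ' ≤ 1 / 16 := by
    have : (1 : ℝ) ≤ (d + 1) ^ 2 := by
      have : (0 : ℝ) ≤ d := by positivity
      nlinarith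
    nlinarith
  obtain ⟨σ, hσ0, hσ1, hσ2, hσ3⟩ : ∃ σ : ℝ, 0 < σ ∧ σ ≤ σ' ∧
      (1 + σ) ^ d - (1 - σ) ^ d < (2 * (σ' / 2)) ^ d ∧ (3 : ℝ) / 4 < (1 - σ) ^ d := by
    have e1 : ∀ᶠ s : ℝ in 𝓝 0, s < σ' :=
      ContinuousAt.eventually_lt (by fun_prop) continuousAt_const hσ'0
    have e2 : ∀ᶠ s : ℝ in 𝓝 0, (1 + s) ^ d - (1 - s) ^ d < (2 * (σ' / 2)) ^ d :=
      ContinuousAt.eventually_lt (by fun_prop) continuousAt_const (by simp; positivity)
    have e3 : ∀ᶠ s : ℝ in 𝓝 0, (3 : ℝ) / 4 < (1 - s) ^ d :=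
      ContinuousAt.eventually_lt continuousAt_const (by fun_prop) (by norm_num)
    obtain ⟨s, hs, hs0⟩ := (((e1.and (e2.and e3)).filter_mono nhdsWithin_le_nhds).and
      (self_mem_nhdsWithin (a := (0 : ℝ)) (s := Set.Ioi 0))).exists
    exact ⟨s, hs0, hs.1.le, hs.2.1, hs.2.2⟩
  refine ⟨σ, hσ0, fun B hB hadm hdet => ?_⟩
  have hr : 0 < 1 - σ := by linarith
  have hdlow := det_ge' hB hr hadm
  have hcov := approx_cover' hB hr (η := σ' / 2) (by positivity) (by linarith) hadm (by linarith)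
  set Λ : Set (Fin d → ℝ) := {v | ∃ z : Fin d → ℤ, v = B *ᵥ cast z} with hΛ
  have hsub : ∀ u ∈ Λ, ∀ v ∈ Λ, u - v ∈ Λ := by
    rintro u ⟨z, rfl⟩ v ⟨w, rfl⟩
    exact ⟨z - w, by rw [cast_sub, Matrix.mulVec_sub]⟩
  have hc1 : ∀ l ∈ Λ, l ≠ 0 → l ∉ K d (1 - σ') := by
    rintro l ⟨z, rfl⟩ hl hK
    have hz : z ≠ 0 := by
      rintro rfl
      apply hl
      rw [cast_zero', Matrix.mulVec_zero]
    exact hadm z hz (K_mono (by linarith) hK)
  have hc2 : ∀ x, ∃ l ∈ Λ, x - l ∈ K d (1 / 2 + σ') := by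
    intro x
    obtain ⟨z, hz⟩ := hcov x
    exact ⟨_, ⟨z, rfl⟩, K_mono (by linarith) hz⟩
  have hcols : ∀ j : Fin d, ∃ z : Fin d → ℤ, ∀ i : Fin d,
      |(B *ᵥ cast z) i - (1 : Matrix (Fin d) (Fin d) ℝ) i j| ≤ 12 * σ' * (d + 1) ^ 3 := by
    intro j
    obtain ⟨l, ⟨z, rfl⟩, hl⟩ := facet hd hsub hσ'0 hσ'1 hc1 hc2 (some j)
    refine ⟨z, fun i => ?_⟩
    have := (norm_le_pi_norm _ i).trans hl
    rw [ind_some] at this
    exact this
  choose zc hzc using hcols
  set Z : Matrix (Fin d) (Fin d) ℤ := Matrix.of fun i j => zc j i with hZ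
  have hBZ : ∀ i j, (B * Z.map (fun k : ℤ => (k : ℝ))) i j = (B *ᵥ cast (zc j)) i := by
    intro i j
    simp [Matrix.mul_apply, Matrix.mulVec, dotProduct, hZ]
  have hnear : ∀ i j, |(B * Z.map (fun k : ℤ => (k : ℝ))) i j -
      (1 : Matrix (Fin d) (Fin d) ℝ) i j| ≤ 12 * σ' * (d + 1) ^ 3 := by
    intro i j
    rw [hBZ]; exact hzc j i
  refine ⟨Z, ?_, fun i j => (hnear i j).trans hσ'2⟩
  have hd1 := hdetn _ (fun i j => (hnear i j).trans hσ'3)
  rw [Matrix.det_mul, det_map] at hd1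
  have hd2 := abs_le.1 hd1
  have hne : Z.det ≠ 0 := by
    intro h
    rw [h] at hd2
    simp at hd2
    linarith [hd2.1]
  have hlt : |(Z.det : ℝ)| < 2 := by
    have h6 : |B.det| * |(Z.det : ℝ)| ≤ 5 / 4 := by
      rw [← abs_mul]
      rw [abs_le]
      constructor <;> linarith
    have h7 : 3 / 4 < |B.det| := lt_of_lt_of_le hσ3 hdlow
    by_contra hcon
    push Not at hcon
    nlinarith
  have hlt' : |Z.det| < 2 := by exact_mod_cast hlt
  rw [Int.isUnit_iff]
  rw [abs_lt] at hlt'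
  omega

end Pool.Agent.H338Z.Perm
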