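import Mathlib
import Pool.Agent.H338Z.Perm.Psi

set_option autoImplicit false

namespace Pool.Agent.H338Z.Perm

open Matrix Finset Pool.Agent.Helper876 Topology Filter

variable {d : ℕ}

lemma Hbound (hd : 4 ≤ d) {H : Matrix (Fin d) (Fin d) ℝ}
    (hα : ∀ i j, i ≠ j → 0 ≤ H i i + H j j + 2 * H i j)
    (hβ : ∀ i, 0 ≤ H i i - 2 * ∑ j, H i j + ∑ i, ∑ j, H i j) :
    0 ≤ ∑ i, H i i + ∑ i, ∑ j, H i j ∧
      ∀ i j, |H i j| ≤ 4 * d * (∑ i, H i i + ∑ i, ∑ j, H i j) := by
  have hd4 : (4 : ℝ) ≤ d := by exact_mod_cast hd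
  set D := ∑ i, H i i with hD
  set T := ∑ i, ∑ j, H i j with hT
  let α : Fin d → Fin d → ℝ := fun i j => if i = j then 0 else H i i + H j j + 2 * H i j
  have hα0 : ∀ i j, 0 ≤ α i j := by
    intro i j
    simp only [α]
    split_ifs with h
    · exact le_rfl
    · exact hα i j h
  have ha : ∀ i, ∑ j, α i j = (d - 4) * H i i + D + 2 * ∑ j, H i j := by
    intro i
    have : ∀ j, α i j = H i i + H j j + 2 * H i j - (if i = j then 4 * H i i else 0) := by
      intro j
      simp only [α]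
      split_ifs with h
      · rw [← h]; ring
      · ring
    simp only [this, Finset.sum_sub_distrib, Finset.sum_add_distrib, Finset.sum_const,
      Finset.card_univ, Fintype.card_fin, nsmul_eq_mul, Finset.sum_ite_eq, Finset.mem_univ,
      if_true, ← Finset.mul_sum]
    ring
  have hA : ∑ i, ∑ j, α i j = (2 * d - 4) * D + 2 * T := by
    simp only [ha, Finset.sum_add_distrib, Finset.sum_const, Finset.card_univ, Fintype.card_fin,
      nsmul_eq_mul, ← Finset.mul_sum]
    ring
  have hB : ∑ i, (H i i - 2 * ∑ j, H i j + T) = D - 2 * T + d * T := by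
    simp only [Finset.sum_add_distrib, Finset.sum_sub_distrib, Finset.sum_const, Finset.card_univ,
      Fintype.card_fin, nsmul_eq_mul, ← Finset.mul_sum]
    rfl
  have hA0 : 0 ≤ ∑ i, ∑ j, α i j :=
    Finset.sum_nonneg fun i _ => Finset.sum_nonneg fun j _ => hα0 i j
  have hB0 : 0 ≤ ∑ i, (H i i - 2 * ∑ j, H i j + T) := Finset.sum_nonneg fun i _ => hβ i
  have hτ : 0 ≤ D + T := by
    by_contra h
    push Not at h
    nlinarith
  have hai : ∀ i, ∑ j, α i j ≤ 2 * d * (D + T) := by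
    intro i
    have := Finset.single_le_sum (f := fun i => ∑ j, α i j)
      (fun i _ => Finset.sum_nonneg fun j _ => hα0 i j) (Finset.mem_univ i)
    nlinarith
  have hbi : ∀ i, H i i - 2 * ∑ j, H i j + T ≤ d * (D + T) := by
    intro i
    have := Finset.single_le_sum (f := fun i => H i i - 2 * ∑ j, H i j + T)
      (fun i _ => hβ i) (Finset.mem_univ i)
    nlinarith
  have hii : ∀ i, |H i i| ≤ 3 * d * (D + T) := by
    intro i
    have h1 := hai i
    have h2 := hbi i
    have h3 := hβ i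
    have h4 : 0 ≤ ∑ j, α i j := Finset.sum_nonneg fun j _ => hα0 i j
    rw [ha] at h1 h4
    rcases le_total 0 (H i i) with h | h
    · rw [abs_of_nonneg h]; nlinarith
    · rw [abs_of_nonpos h]; nlinarith
  refine ⟨hτ, fun i j => ?_⟩
  by_cases h : i = j
  · rw [← h]; nlinarith [hii i]
  · have h1 : α i j ≤ ∑ j, α i j :=
      Finset.single_le_sum (f := fun j => α i j) (fun j _ => hα0 i j) (Finset.mem_univ j)
    have h2 := hα0 i j
    have h3 := hai i
    simp only [α, if_neg h] at h1 h2 h3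
    have h4 := abs_le.1 (hii i)
    have h5 := abs_le.1 (hii j)
    rw [abs_le]
    constructor <;> nlinarith

/-- Gram matrix of `A_d^*` -/
def Qm (d : ℕ) : Matrix (Fin d) (Fin d) ℝ := ((d : ℝ) + 1) • 1 - Helper876.J d

lemma Qm_mulVec (x : Fin d → ℝ) (i : Fin d) : (Qm d *ᵥ x) i = (d + 1) * x i - ∑ j, x j := by
  rw [Qm, Matrix.sub_mulVec, Matrix.smul_mulVec, Matrix.one_mulVec]
  simp [Helper876.J, Matrix.mulVec, dotProduct]

lemma Qm_mul (A : Matrix (Fin d) (Fin d) ℝ) (i j : Fin d) :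
    (Qm d * A) i j = (d + 1) * A i j - ∑ k, A k j := by
  rw [Qm, sub_mul, Matrix.smul_mul, one_mul, Matrix.sub_apply, Matrix.smul_apply,
    Matrix.mul_apply]
  simp [Helper876.J]

lemma Qm_symm : (Qm d)ᵀ = Qm d := by
  ext i j; simp [Qm, Helper876.J, Matrix.one_apply, eq_comm]

lemma Qm_inv : Qm d * ((1 / ((d : ℝ) + 1)) • (1 + Helper876.J d)) = 1 := by
  have h : ((d : ℝ) + 1) ≠ 0 := by positivity
  ext i j
  rw [Qm_mul]
  simp only [Matrix.smul_apply, Matrix.add_apply, Helper876.J, Matrix.of_apply, smul_eq_mul,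
    ← Finset.mul_sum, Finset.sum_add_distrib, Matrix.one_apply, Finset.sum_ite_eq',
    Finset.mem_univ, if_true, Finset.sum_const, Finset.card_univ, Fintype.card_fin, nsmul_eq_mul]
  field_simp
  ring

lemma Qm_quad (x : Fin d → ℝ) : ∑ i, x i ^ 2 ≤ x ⬝ᵥ (Qm d *ᵥ x) := by
  have := sq_sum_le_card_mul_sum_sq (s := (Finset.univ : Finset (Fin d))) (f := x)
  simp only [Finset.card_univ, Fintype.card_fin] at this
  have h : x ⬝ᵥ (Qm d *ᵥ x) = (d + 1) * ∑ i, x i ^ 2 - (∑ i, x i) ^ 2 := by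
    simp only [dotProduct, Qm_mulVec, mul_sub, Finset.sum_sub_distrib, ← Finset.sum_mul,
      Finset.mul_sum]
    congr 1
    · exact Finset.sum_congr rfl fun i _ => by ring
    · rw [sq, Finset.sum_mul_sum]
  rw [h]; nlinarith

lemma quad_small {H : Matrix (Fin d) (Fin d) ℝ} {m : ℝ} (hm : 0 ≤ m) (hH : ∀ i j, |H i j| ≤ m)
    (x : Fin d → ℝ) : |x ⬝ᵥ (H *ᵥ x)| ≤ m * (d * ∑ i, x i ^ 2) := by
  rw [quad_expand]
  calc |∑ i, ∑ j, x i * x j * H i j|
      ≤ ∑ i, |∑ j, x i * x j * H i j| := Finset.abs_sum_le_sum_abs _ _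
    _ ≤ ∑ i, ∑ j, |x i * x j * H i j| :=
        Finset.sum_le_sum fun i _ => Finset.abs_sum_le_sum_abs _ _
    _ ≤ ∑ i, ∑ j, |x i| * |x j| * m := by
        refine Finset.sum_le_sum fun i _ => Finset.sum_le_sum fun j _ => ?_
        rw [abs_mul, abs_mul]
        exact mul_le_mul_of_nonneg_left (hH i j) (by positivity)
    _ = m * (∑ i, |x i|) ^ 2 := by
        rw [sq, Finset.sum_mul_sum, Finset.mul_sum]
        refine Finset.sum_congr rfl fun i _ => ?_
        rw [Finset.mul_sum]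
        refine Finset.sum_congr rfl fun j _ => by ring
    _ ≤ m * (d * ∑ i, x i ^ 2) := by
        apply mul_le_mul_of_nonneg_left _ hm
        have := sq_sum_le_card_mul_sum_sq (s := (Finset.univ : Finset (Fin d)))
          (f := fun i => |x i|)
        simpa using this

lemma posDef_add {H : Matrix (Fin d) (Fin d) ℝ} (hs : Hᵀ = H) {m : ℝ} (hm : 0 ≤ m)
    (hH : ∀ i j, |H i j| ≤ m) (hmd : m * d ≤ 1 / 2) : (Qm d + H).PosDef := by
  rw [Matrix.posDef_iff_dotProduct_mulVec]
  refine ⟨?_, ?_⟩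
  · show (Qm d + H)ᴴ = _
    rw [Matrix.conjTranspose_eq_transpose_of_trivial, Matrix.transpose_add, Qm_symm, hs]
  · intro x hx
    simp only [star_trivial]
    rw [Matrix.add_mulVec, dotProduct_add]
    have e2 := (abs_le.1 (quad_small hm hH x)).1
    have e3 : 0 < ∑ i, x i ^ 2 := by
      obtain ⟨i, hi⟩ := Function.ne_iff.1 hx
      have h2 : x i ^ 2 ≤ ∑ i, x i ^ 2 :=
        Finset.single_le_sum (f := fun i => x i ^ 2) (fun i _ => sq_nonneg _) (Finset.mem_univ i)
      have h3 : 0 < x i ^ 2 := by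
        have : x i ≠ 0 := hi
        positivity
      linarith
    have e4 := Qm_quad x
    nlinarith

lemma psi_dot (S : Finset (Option (Fin d))) (x : Fin d → ℝ) :
    psi S x = cast (ind S) ⬝ᵥ (Qm d *ᵥ x) := by
  have h1 : ∑ o ∈ S, ht x o = ∑ i, (if some i ∈ S then 1 else 0) * x i := by
    have : ∑ o ∈ S, ht x o = ∑ o, if o ∈ S then ht x o else 0 := by simp [Finset.sum_ite_mem]
    rw [this, Fintype.sum_option]
    simp
  have h2 : ∑ i, cast (ind S) i = S.card - (if none ∈ S then (d + 1 : ℝ) else 0) := by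
    have := congrArg (fun k : ℤ => (k : ℝ)) (sum_ind S)
    simp only [Int.cast_sum] at this
    simp only [cast_apply]
    rw [this]; push_cast; rfl
  have h3 : ∑ i, cast (ind S) i * x i = ∑ o ∈ S, ht x o - (if none ∈ S then 1 else 0) * ∑ i, x i := by
    rw [h1, Finset.mul_sum, ← Finset.sum_sub_distrib]
    refine Finset.sum_congr rfl fun i _ => ?_
    simp only [cast_apply, ind]
    push_cast; ring
  have h4 : cast (ind S) ⬝ᵥ (Qm d *ᵥ x) =
      (d + 1) * ∑ i, cast (ind S) i * x i - (∑ i, cast (ind S) i) * ∑ j, x j := by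
    simp only [dotProduct, Qm_mulVec, mul_sub, Finset.sum_sub_distrib, ← Finset.sum_mul]
    congr 1
    rw [Finset.mul_sum]
    exact Finset.sum_congr rfl fun i _ => by ring
  rw [h4, h3, h2, psi, Fintype.sum_option]
  simp only [ht_none, ht_some]
  split_ifs <;> ring

/-- the constraints coming from the two-element subsets -/
def Cons (B : Matrix (Fin d) (Fin d) ℝ) : Prop :=
  ∀ S : Finset (Option (Fin d)), S.card = 2 → w S ≤ psi S (B *ᵥ cast (ind S))

lemma local_lemma' (hd : 4 ≤ d) : ∃ η : ℝ, 0 < η ∧ ∀ B : Matrix (Fin d) (Fin d) ℝ,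
    Near η B → Cons B → 1 ≤ B.det ∧ (B.det ≤ 1 → B = 1) := by
  have hd4 : (4 : ℝ) ≤ d := by exact_mod_cast hd
  have hn : (0 : ℝ) < d + 1 := by positivity
  obtain ⟨η₀, hη₀, hdet0⟩ := det_near_one d (κ := 1 / (8 * d * (d + 1))) (by positivity)
  obtain ⟨η₁, hη₁, hdetn⟩ := det_near d (κ := 1 / 4) (by norm_num)
  obtain ⟨η, hη, hηa, hηb, hηc⟩ : ∃ η : ℝ, 0 < η ∧ η ≤ η₁ ∧ 2 * (d + 1) * η ≤ η₀ ∧
      2 * (d + 1) * η * d ≤ 1 / 2 := by
    have e1 : ∀ᶠ s : ℝ in 𝓝 0, s < η₁ :=
      ContinuousAt.eventually_lt (by fun_prop) continuousAt_const hη₁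
    have e2 : ∀ᶠ s : ℝ in 𝓝 0, 2 * (d + 1) * s < η₀ :=
      ContinuousAt.eventually_lt (by fun_prop) continuousAt_const (by simpa using hη₀)
    have e3 : ∀ᶠ s : ℝ in 𝓝 0, 2 * (d + 1) * s * d < 1 / 2 :=
      ContinuousAt.eventually_lt (by fun_prop) continuousAt_const (by simp)
    obtain ⟨s, hs, hs0⟩ := (((e1.and (e2.and e3)).filter_mono nhdsWithin_le_nhds).and
      (self_mem_nhdsWithin (a := (0 : ℝ)) (s := Set.Ioi 0))).exists
    exact ⟨s, hs0, hs.1.le, hs.2.1.le, hs.2.2.le⟩
  refine ⟨η, hη, fun B hB hC => ?_⟩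
  have hBpos : 0 < B.det := by
    have := abs_le.1 (hdetn B fun i j => (hB i j).trans hηa)
    linarith [this.1]
  set G : Matrix (Fin d) (Fin d) ℝ := Qm d * (B - 1) with hG
  set H : Matrix (Fin d) (Fin d) ℝ := (1 / 2 : ℝ) • (G + Gᵀ) with hH
  set Ks : Matrix (Fin d) (Fin d) ℝ := (1 / 2 : ℝ) • (G - Gᵀ) with hK
  have hHij : ∀ i j, H i j = (G i j + G j i) / 2 := by
    intro i j
    simp only [hH, Matrix.smul_apply, Matrix.add_apply, Matrix.transpose_apply, smul_eq_mul]
    ring
  have hHT : Hᵀ = H := by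
    ext i j; rw [Matrix.transpose_apply, hHij, hHij]; ring
  have hKT : Ksᵀ = -Ks := by
    rw [hK, Matrix.transpose_smul, Matrix.transpose_sub, Matrix.transpose_transpose, ← smul_neg]
    congr 1; abel
  have hF : Qm d + H + Ks = Qm d * B := by
    have h1 : H + Ks = G := by
      rw [hH, hK, ← smul_add]
      have : G + Gᵀ + (G - Gᵀ) = (2 : ℝ) • G := by rw [two_smul]; abel
      rw [this, smul_smul]; norm_num
    rw [add_assoc, h1, hG, mul_sub, mul_one]; abel
  have hGle : ∀ i j, |G i j| ≤ 2 * (d + 1) * η := by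
    intro i j
    rw [hG, Qm_mul]
    have h1 : ∀ i j, |(B - 1) i j| ≤ η := fun i j => by simpa using hB i j
    have h2 : |∑ k, (B - 1) k j| ≤ d * η := by
      calc _ ≤ ∑ k, |(B - 1) k j| := Finset.abs_sum_le_sum_abs _ _
        _ ≤ ∑ _k : Fin d, η := Finset.sum_le_sum fun k _ => h1 k j
        _ = d * η := by simp
    have h3 := abs_le.1 (h1 i j)
    have h4 := abs_le.1 h2
    rw [abs_le]
    constructor <;> nlinarith
  have hHle : ∀ i j, |H i j| ≤ 2 * (d + 1) * η := by
    intro i j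
    rw [hHij]
    have h3 := abs_le.1 (hGle i j)
    have h4 := abs_le.1 (hGle j i)
    rw [abs_le]
    constructor <;> linarith
  have hquad : ∀ S : Finset (Option (Fin d)), S.card = 2 →
      0 ≤ cast (ind S) ⬝ᵥ (G *ᵥ cast (ind S)) := by
    intro S hS
    have h1 := hC S hS
    rw [← psi_ind_self] at h1
    rw [hG, ← Matrix.mulVec_mulVec, ← psi_dot, Matrix.sub_mulVec, Matrix.one_mulVec, psi_sub]
    linarith
  have hα : ∀ i j, i ≠ j → 0 ≤ H i i + H j j + 2 * H i j := by
    intro i j hij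
    have h1 := hquad {some i, some j} (Finset.card_pair (by simpa using hij))
    have h2 : cast (ind {some i, some j}) = Pi.single i (1 : ℝ) + Pi.single j 1 := by
      funext k
      by_cases hi : k = i
      · subst hi; simp [ind, hij]
      · by_cases hj : k = j
        · subst hj; simp [ind, hi]
        · simp [ind, hi, hj]
    rw [h2, Matrix.mulVec_add, dotProduct_add, add_dotProduct, add_dotProduct] at h1
    simp at h1
    rw [hHij, hHij, hHij]
    linarith
  have hβ : ∀ i, 0 ≤ H i i - 2 * ∑ j, H i j + ∑ i, ∑ j, H i j := by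
    intro i
    have h1 := hquad {none, some i} (Finset.card_pair (by simp))
    have h2 : cast (ind {none, some i}) = Pi.single i (1 : ℝ) - fun _ => 1 := by
      funext k
      by_cases hi : k = i
      · subst hi; simp [ind]
      · simp [ind, hi]
    rw [h2, Matrix.mulVec_sub, dotProduct_sub, sub_dotProduct, sub_dotProduct] at h1
    simp [dotProduct, Matrix.mulVec, Pi.single_apply] at h1
    have h3 : ∑ i, ∑ j, H i j = ∑ i, ∑ j, G i j := by
      simp only [hHij, ← Finset.sum_div, Finset.sum_add_distrib]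
      rw [Finset.sum_comm (f := fun i j => G j i)]
      ring
    have h4 : 2 * ∑ j, H i j = ∑ j, G i j + ∑ j, G j i := by
      simp only [hHij, ← Finset.sum_div, Finset.sum_add_distrib]
      ring
    rw [h3, h4, hHij]
    linarith
  obtain ⟨hτ, hbd⟩ := Hbound hd hα hβ
  set τ := ∑ i, H i i + ∑ i, ∑ j, H i j with hτdef
  set P : Matrix (Fin d) (Fin d) ℝ := (1 / ((d : ℝ) + 1)) • (1 + Helper876.J d) with hP
  have hPH : ∀ i j, (P * H) i j = (H i j + ∑ k, H k j) / (d + 1) := by
    intro i j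
    rw [hP, Matrix.smul_mul, add_mul, one_mul, Matrix.smul_apply, Matrix.add_apply,
      Matrix.mul_apply]
    simp [Helper876.J]; ring
  have hPHle : ∀ m : ℝ, (∀ i j, |H i j| ≤ m) → ∀ i j, |(P * H) i j| ≤ m := by
    intro m hm i j
    have h2 : |∑ k, H k j| ≤ d * m := by
      calc _ ≤ ∑ k, |H k j| := Finset.abs_sum_le_sum_abs _ _
        _ ≤ ∑ _k : Fin d, m := Finset.sum_le_sum fun k _ => hm k j
        _ = d * m := by simp
    rw [hPH, abs_div, abs_of_pos hn, div_le_iff₀ hn]
    linarith [abs_add_le (H i j) (∑ k, H k j), hm i j]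
  have htr : (P * H).trace = τ / (d + 1) := by
    have : (P * H).trace = ∑ i, (P * H) i i := rfl
    rw [this]
    simp only [hPH, ← Finset.sum_div, Finset.sum_add_distrib]
    rw [Finset.sum_comm (f := fun i k => H k i)]
  set m : ℝ := min (4 * d * τ) (2 * (d + 1) * η) with hm
  have hm0 : 0 ≤ m := le_min (by positivity) (by positivity)
  have h5 := hdet0 (P * H) m hm0 ((min_le_right _ _).trans hηb)
    (hPHle m fun i j => le_min (hbd i j) (hHle i j))
  rw [htr] at h5
  have h6 : 1 / (8 * (d : ℝ) * (d + 1)) * m ≤ τ / (2 * (d + 1)) := by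
    calc _ ≤ 1 / (8 * (d : ℝ) * (d + 1)) * (4 * d * τ) := by
          gcongr; exact min_le_left _ _
      _ = _ := by field_simp; ring
  have h7 : 1 + τ / (2 * (d + 1)) ≤ (1 + P * H).det := by
    have h8 : τ / ((d : ℝ) + 1) = 2 * (τ / (2 * (d + 1))) := by field_simp
    have := (abs_le.1 h5).1
    linarith
  have hSpd : (Qm d + H).PosDef := posDef_add hHT (by positivity) hHle hηc
  have hQpd : (Qm d).PosDef := by
    have := posDef_add (d := d) (H := 0) (by simp) (m := 0) le_rfl (by simp) (by norm_num)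
    rwa [add_zero] at this
  have hdQ := hQpd.det_pos
  have hfac : (Qm d + H).det = (Qm d).det * (1 + P * H).det := by
    rw [← Matrix.det_mul, mul_add, mul_one, ← mul_assoc, hP, Qm_inv, one_mul]
  have hot := OT hSpd hKT
  rw [hF, Matrix.det_mul] at hot
  have hSF : (Qm d + H).det ≤ (Qm d).det * B.det :=
    (pow_le_pow_iff_left₀ hSpd.det_pos.le (by positivity) two_ne_zero).1 hot.1
  have hmain : 1 + τ / (2 * (d + 1)) ≤ B.det := by
    rw [hfac] at hSF
    exact h7.trans (le_of_mul_le_mul_left hSF hdQ)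
  have hdiv : 0 ≤ τ / (2 * (d + 1)) := by positivity
  refine ⟨by linarith, fun hle => ?_⟩
  have hτ0 : τ = 0 := by
    have h9 : τ / (2 * (d + 1)) = 0 := le_antisymm (by linarith) hdiv
    rcases div_eq_zero_iff.1 h9 with h | h
    · exact h
    · exfalso; linarith
  have hH0 : H = 0 := by
    ext i j
    have := hbd i j
    rw [hτ0, mul_zero] at this
    simpa using abs_eq_zero.1 (le_antisymm this (abs_nonneg _))
  have hK0 : Ks = 0 := by
    apply hot.2
    rw [hH0, add_zero]
    exact pow_le_pow_left₀ (by positivity) (by nlinarith) 2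
  rw [hH0, hK0, add_zero, add_zero] at hF
  have hQu : IsUnit (Qm d).det := isUnit_iff_ne_zero.2 hdQ.ne'
  calc B = ((Qm d)⁻¹ * Qm d) * B := by rw [Matrix.nonsing_inv_mul _ hQu, one_mul]
    _ = (Qm d)⁻¹ * Qm d := by rw [mul_assoc, ← hF]
    _ = 1 := Matrix.nonsing_inv_mul _ hQu

lemma compact_step' {η₁ η₂ : ℝ} (hη₂ : 0 < η₂)
    (hloc : ∀ B : Matrix (Fin d) (Fin d) ℝ, Near η₁ B → Cons B →
      1 ≤ B.det ∧ (B.det ≤ 1 → B = 1)) :
    ∃ m : ℝ, 1 < m ∧ ∀ B : Matrix (Fin d) (Fin d) ℝ, Near η₁ B → Cons B → B.det ≤ m →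
      Near η₂ B := by
  set S : Set (Fin d → Fin d → ℝ) := {M | Near η₁ (Matrix.of M)} ∩ ({M | Cons (Matrix.of M)} ∩
    {M | ∃ i j, η₂ ≤ |M i j - (1 : Matrix (Fin d) (Fin d) ℝ) i j|}) with hS
  have hSc : IsCompact S := by
    rw [Metric.isCompact_iff_isClosed_bounded]
    refine ⟨(isClosed_near η₁).inter (IsClosed.inter ?_ ?_),
      (isBounded_near η₁).subset Set.inter_subset_left⟩
    · have : {M : Fin d → Fin d → ℝ | Cons (Matrix.of M)} = ⋂ S : Finset (Option (Fin d)),
          ⋂ (_ : S.card = 2), {M | w S ≤ psi S (Matrix.of M *ᵥ cast (ind S))} := by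
        ext M; simp [Cons]
      rw [this]
      refine isClosed_iInter fun a => isClosed_iInter fun _ => ?_
      exact isClosed_le continuous_const ((psi_continuous a).comp (continuous_mulVec_of _))
    · have : {M : Fin d → Fin d → ℝ | ∃ i j, η₂ ≤ |M i j - (1 : Matrix (Fin d) (Fin d) ℝ) i j|} =
          ⋃ i, ⋃ j, {M | η₂ ≤ |M i j - (1 : Matrix (Fin d) (Fin d) ℝ) i j|} := by
        ext M; simp
      rw [this]
      refine isClosed_iUnion_of_finite fun i => isClosed_iUnion_of_finite fun j => ?_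
      exact isClosed_le continuous_const (by fun_prop)
  rcases S.eq_empty_or_nonempty with hemp | hne
  · refine ⟨2, by norm_num, fun B hB hR _ => ?_⟩
    intro i j
    by_contra hcon
    push Not at hcon
    have : (fun i j => B i j) ∈ S := ⟨hB, hR, i, j, hcon.le⟩
    rw [hemp] at this
    exact this
  · obtain ⟨M₀, hM₀, hmin⟩ := hSc.exists_isMinOn hne continuous_det_of.continuousOn
    have h1 := hloc _ hM₀.1 hM₀.2.1
    have h2 : 1 < (Matrix.of M₀).det := by
      rcases lt_or_eq_of_le h1.1 with h | h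
      · exact h
      · exfalso
        have h3 := h1.2 h.ge
        obtain ⟨i, j, hij⟩ := hM₀.2.2
        have h4 : M₀ i j = (1 : Matrix (Fin d) (Fin d) ℝ) i j := by rw [← h3]; rfl
        rw [h4, sub_self, abs_zero] at hij
        linarith
    refine ⟨(1 + (Matrix.of M₀).det) / 2, by linarith, fun B hB hR hdet => ?_⟩
    intro i j
    by_contra hcon
    push Not at hcon
    have h5 : (fun i j => B i j) ∈ S := ⟨hB, hR, i, j, hcon.le⟩
    have h6 : (Matrix.of M₀).det ≤ B.det := hmin h5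
    linarith

end Pool.Agent.H338Z.Perm
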