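import Mathlib
import Pool.Agent.H338Z.Perm.Glob
import Pool.Agent.H338Z.Perm.Loc
import Pool.Agent.H338Z.Perm.Gauge

set_option autoImplicit false

namespace Pool.Agent.H338Z.Perm

open Matrix Finset MeasureTheory Module Pool.Agent.Helper876 Filter
open scoped Pointwise ENNReal Topology

variable {d : ℕ}

/-- depth factor of the cut -/
def cf (ε : ℝ) (S : Finset (Option (Fin d))) : ℝ :=
  if S.card = 2 ∨ (Sᶜ).card = 2 then 1 else 1 - ε

/-- the cut permutohedron -/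
def Ce (d : ℕ) (ε r : ℝ) : Set (Fin d → ℝ) := {x | ∀ S, psi S x ≤ cf ε S * r * w S}

lemma cf_le {ε : ℝ} (hε : 0 ≤ ε) (S : Finset (Option (Fin d))) : cf ε S ≤ 1 := by
  unfold cf; split_ifs <;> linarith

lemma le_cf {ε : ℝ} (hε : 0 ≤ ε) (S : Finset (Option (Fin d))) : 1 - ε ≤ cf ε S := by
  unfold cf; split_ifs <;> linarith

lemma cf_compl (ε : ℝ) (S : Finset (Option (Fin d))) : cf ε Sᶜ = cf ε S := by
  unfold cf; rw [compl_compl]; simp only [or_comm]

lemma Ce_smul {ε r a : ℝ} (ha : 0 ≤ a) {x : Fin d → ℝ} (hx : x ∈ Ce d ε r) :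
    a • x ∈ Ce d ε (a * r) := by
  intro S
  rw [psi_smul]
  have := mul_le_mul_of_nonneg_left (hx S) ha
  linarith

lemma Ce_sub_K {ε r : ℝ} (hε : 0 ≤ ε) (hr : 0 ≤ r) : Ce d ε r ⊆ K d r := by
  intro x hx S
  have h1 := hx S
  have h2 := cf_le hε S
  have h3 := mul_nonneg hr (w_nonneg S)
  nlinarith

lemma K_sub_Ce {ε r : ℝ} (hε : 0 ≤ ε) (hr : 0 ≤ r) : K d ((1 - ε) * r) ⊆ Ce d ε r := by
  intro x hx S
  have h1 := hx S
  have h2 := le_cf hε S
  have h3 := mul_nonneg hr (w_nonneg S)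
  nlinarith

/-- properties of the gauge of a body close to the cut permutohedron -/
structure IsG' (d : ℕ) (ε s : ℝ) (g : (Fin d → ℝ) → ℝ) : Prop where
  smul : ∀ (a : ℝ) (x : Fin d → ℝ), 0 ≤ a → g (a • x) = a * g x
  nonneg : ∀ x, 0 ≤ g x
  cont : Continuous g
  le_of_mem : ∀ x ∈ Ce d ε (1 - s), g x ≤ 1
  mem_of_le : ∀ x, g x ≤ 1 → x ∈ Ce d ε (1 + s)

lemma IsG'.mem {ε s : ℝ} {g : (Fin d → ℝ) → ℝ} (hg : IsG' d ε s g) {t : ℝ} (ht : 0 < t)
    {x : Fin d → ℝ} (hx : g x ≤ t) : x ∈ Ce d ε (t * (1 + s)) := by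
  have h1 : g (t⁻¹ • x) ≤ 1 := by
    rw [hg.smul _ _ (inv_nonneg.2 ht.le), inv_mul_le_iff₀ ht, mul_one]
    exact hx
  have := Ce_smul ht.le (hg.mem_of_le _ h1)
  rwa [smul_smul, mul_inv_cancel₀ ht.ne', one_smul] at this

lemma IsG'.isN {ε s : ℝ} {g : (Fin d → ℝ) → ℝ} (hg : IsG' d ε s g) (hd : 1 ≤ d) (hε : 0 ≤ ε)
    (hs0 : 0 ≤ s) (hs : s ≤ 1) : IsN (2 * d) g := by
  have hd1 : (1 : ℝ) ≤ d := by exact_mod_cast hd
  refine ⟨by positivity, hg.smul, hg.nonneg, fun x => ?_⟩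
  refine le_of_forall_pos_le_add fun δ hδ => ?_
  have h0 := hg.nonneg x
  have ht : 0 < g x + δ / (2 * d) := by positivity
  have h1 := K_norm (Ce_sub_K hε (by positivity) (hg.mem ht (x := x)
    (le_add_of_nonneg_right (by positivity))))
  have h2 : 2 * d * (δ / (2 * d)) = δ := by field_simp
  have h3 : (g x + δ / (2 * d)) * (1 + s) * d ≤ (g x + δ / (2 * d)) * 2 * d := by
    gcongr; linarith
  nlinarith

lemma IsG'.not_mem {ε s : ℝ} {g : (Fin d → ℝ) → ℝ} (hg : IsG' d ε s g) (hs0 : 0 < s)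
    (hs : s ≤ 1 / 4) {x : Fin d → ℝ} (hx : 1 ≤ g x) : x ∉ Ce d ε (1 - 2 * s) := by
  intro hmem
  have h1 : 0 < 1 - 2 * s := by linarith
  have h2 := Ce_smul (a := (1 - s) / (1 - 2 * s)) (div_nonneg (by linarith) h1.le) hmem
  rw [div_mul_cancel₀ _ h1.ne'] at h2
  have h3 := hg.le_of_mem _ h2
  rw [hg.smul _ _ (div_nonneg (by linarith) h1.le), div_mul_eq_mul_div, div_le_one h1] at h3
  nlinarith

lemma psi_near {η : ℝ} (hη : 0 ≤ η) {B : Matrix (Fin d) (Fin d) ℝ} (hB : Near η B)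
    (S : Finset (Option (Fin d))) (x : Fin d → ℝ) :
    |psi S (B *ᵥ x) - psi S x| ≤ 2 * (d * η * ‖x‖) * w S := by
  have h1 := near_mulVec hη hB x
  have h2 := psi_le_norm S (B *ᵥ x - x)
  have h3 := psi_le_norm S (-(B *ᵥ x - x))
  rw [psi_neg, norm_neg] at h3
  rw [psi_sub] at h2 h3
  have h4 : 2 * ‖B *ᵥ x - x‖ * w S ≤ 2 * (d * η * ‖x‖) * w S := by
    have := w_nonneg S
    gcongr
  rw [abs_le]; constructor <;> linarith

lemma one_entry (i j : Fin d) : |(1 : Matrix (Fin d) (Fin d) ℝ) i j| ≤ 1 := by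
  rw [Matrix.one_apply]; split_ifs <;> simp

lemma stepC (hd : 4 ≤ d) {ε s η : ℝ} (hε : 0 ≤ ε) (hs0 : 0 ≤ s) (hs : s ≤ 1 / 4) (hη : 0 ≤ η)
    (hsum : (ε + 2 * s + 2 * d * η) * (d + 1) ^ 2 ≤ 1) {B : Matrix (Fin d) (Fin d) ℝ}
    (hB : Near η B) (hadm : ∀ z : Fin d → ℤ, z ≠ 0 → B *ᵥ cast z ∉ Ce d ε (1 - 2 * s)) :
    Cons ((1 - 2 * s)⁻¹ • B) := by
  intro S hS
  have hd4 : (4 : ℝ) ≤ d := by exact_mod_cast hd
  have h1s : 0 < 1 - 2 * s := by linarith
  have hwS : 0 < w S := by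
    rw [w, hS]; push_cast; linarith
  have hz : ind S ≠ 0 := by
    intro h
    have := psi_ind_self S
    rw [h, cast_zero', psi_zero] at this
    linarith
  have h1 := hadm _ hz
  simp only [Ce, Set.mem_setOf_eq, not_forall, not_le] at h1
  obtain ⟨T, hT⟩ := h1
  have hw : 0 < w T := by
    by_contra h
    rw [psi_of_w h, le_antisymm (not_lt.1 h) (w_nonneg T), mul_zero] at hT
    exact lt_irrefl _ hT
  by_cases hTS : T = S
  · rw [hTS, cf, if_pos (Or.inl hS), one_mul] at hT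
    rw [Matrix.smul_mulVec, psi_smul, le_inv_mul_iff₀ h1s]
    exact hT.le
  · exfalso
    have h2 := psi_ind_ne hw hTS
    have h3 := (abs_le.1 (psi_near hη hB T (cast (ind S)))).2
    have h4 : 2 * (d * η * ‖cast (ind S)‖) * w T ≤ 2 * (d * η * 1) * w T := by
      have := norm_ind S
      gcongr
    have h5 : (1 - ε) * ((1 - 2 * s) * w T) ≤ cf ε T * ((1 - 2 * s) * w T) :=
      mul_le_mul_of_nonneg_right (le_cf hε T) (by positivity)
    have h6 : (ε + 2 * s + 2 * d * η) * w T ≤ (ε + 2 * s + 2 * d * η) * (d + 1) ^ 2 :=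
      mul_le_mul_of_nonneg_left (w_le T) (by positivity)
    have h7 : 0 ≤ ε * s * w T := by positivity
    nlinarith

lemma stepD (hd : 4 ≤ d) (hodd : Odd d) {ε s η : ℝ} {g : (Fin d → ℝ) → ℝ} (hg : IsG' d ε s g)
    (hε : 0 < ε) (hεN : ε * (d + 1) ^ 2 ≤ 1 / 4) (hs0 : 0 ≤ s) (hs : s ≤ ε / 4) (hη : 0 ≤ η)
    (hηε : 8 * d ^ 2 * η ≤ ε / 4) {B : Matrix (Fin d) (Fin d) ℝ} (hB : Near η B)
    {z : Fin d → ℤ} (hz : Odd (∑ i, z i)) : 1 + ε / 4 ≤ g (B *ᵥ cast z) := by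
  have hd4 : (4 : ℝ) ≤ d := by exact_mod_cast hd
  have hε1 : ε ≤ 1 / 4 := by nlinarith
  by_contra hcon
  push Not at hcon
  have hz0 : z ≠ 0 := by
    rintro rfl
    simp at hz
  have h1 := hg.mem (t := 1 + ε / 4) (by positivity) hcon.le
  have hr : (1 + ε / 4) * (1 + s) ≤ 1 + 9 / 16 * ε := by nlinarith
  have h2 : ‖B *ᵥ cast z‖ ≤ 2 * d := by
    have := K_norm (Ce_sub_K hε.le (by positivity) h1)
    nlinarith
  have h3 := near_mulVec hη hB (cast z)
  have h4 : d * η ≤ 1 / 2 := by nlinarith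
  have h5 : ‖cast z‖ ≤ 4 * d := by
    have a1 : ‖cast z‖ ≤ ‖B *ᵥ cast z‖ + ‖B *ᵥ cast z - cast z‖ := by
      have := norm_sub_le (B *ᵥ cast z) (B *ᵥ cast z - cast z)
      rwa [sub_sub_cancel] at this
    nlinarith [norm_nonneg (cast z)]
  obtain ⟨S, hw, hS⟩ := int_argmax hz0
  have h6 := (abs_le.1 (psi_near hη hB S (cast z))).1
  have h7 : 2 * (d * η * ‖cast z‖) * w S ≤ ε / 4 * w S := by
    apply mul_le_mul_of_nonneg_right _ hw.le
    have : d * η * ‖cast z‖ ≤ d * η * (4 * d) := by gcongr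
    nlinarith
  have h8 := h1 S
  rcases hS with hS | hS
  · have a1 : cf ε S * ((1 + ε / 4) * (1 + s)) * w S ≤ 1 * (1 + 9 / 16 * ε) * w S := by
      have := cf_le hε.le S
      gcongr
    have a2 : ε * w S ≤ ε * (d + 1) ^ 2 := mul_le_mul_of_nonneg_left (w_le S) hε.le
    nlinarith
  · have hcf : cf ε S = 1 - ε := by
      rw [hS, sum_ind] at hz
      have hc := Finset.card_add_card_compl S
      rw [Fintype.card_option, Fintype.card_fin] at hc
      obtain ⟨k, hk⟩ := hodd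
      obtain ⟨l, hl⟩ := hz
      rw [cf, if_neg]
      split_ifs at hl <;> omega
    rw [hS, psi_ind_self] at h6
    rw [hS] at h7 h8
    rw [hcf] at h8
    have a1 : (1 - ε) * ((1 + ε / 4) * (1 + s)) * w S ≤ (1 - ε) * (1 + 9 / 16 * ε) * w S := by
      have : 0 ≤ 1 - ε := by linarith
      gcongr
    have a2 : 0 < ε * w S := by positivity
    have a3 : 0 ≤ ε * ε * w S := by positivity
    nlinarith

lemma adm_one' {ε s : ℝ} {g : (Fin d → ℝ) → ℝ} (hg : IsG' d ε s g) (hε : 0 ≤ ε) (hs : 0 < s) :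
    Adm g ((1 + 2 * s) • (1 : Matrix (Fin d) (Fin d) ℝ)) := by
  intro z hz
  rw [Matrix.smul_mulVec, Matrix.one_mulVec]
  by_contra hcon
  push Not at hcon
  obtain ⟨S, hw, hS⟩ := int_argmax hz
  have h1 : w S ≤ psi S (cast z) := by
    rcases hS with h | h
    · linarith
    · rw [h, psi_ind_self]
  have h2 := Ce_sub_K hε (by linarith) (hg.mem_of_le _ hcon.le) S
  rw [psi_smul] at h2
  nlinarith

theorem abstract_main' (hd : 4 ≤ d) (hodd : Odd d) : ∃ ε s : ℝ, 0 < ε ∧ ε ≤ 1 / 4 ∧ 0 < s ∧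
    s ≤ 1 / 4 ∧ ∀ g : (Fin d → ℝ) → ℝ, IsG' d ε s g → (∃ B, IsDens g B) ∧
      ∀ B, IsDens g B → 0 < minN g B ∧ ∃ Z : Matrix (Fin d) (Fin d) ℤ, IsUnit Z.det ∧
        ∀ z : Fin d → ℤ, Odd (∑ i, z i) →
          (1 + ε / 4) * minN g B ≤ g (B *ᵥ cast (Z *ᵥ z)) := by
  have hd1 : 1 ≤ d := by omega
  have hd4 : (4 : ℝ) ≤ d := by exact_mod_cast hd
  obtain ⟨ηl, hηl, hloc⟩ := local_lemma' hd
  obtain ⟨η₁, hη₁, hdetn⟩ := det_near d (κ := 1 / 4) (by norm_num)
  have pick : ∀ {p : ℝ → Prop}, (∀ᶠ s : ℝ in 𝓝 0, p s) → ∃ s, 0 < s ∧ p s := by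
    intro p hp
    obtain ⟨s, hs, hs0⟩ := ((hp.filter_mono nhdsWithin_le_nhds).and
      (self_mem_nhdsWithin (a := (0 : ℝ)) (s := Set.Ioi 0))).exists
    exact ⟨s, hs0, hs⟩
  have small : ∀ (a b : ℝ), 0 < b → ∀ᶠ s : ℝ in 𝓝 0, a * s < b := fun a b hb =>
    ContinuousAt.eventually_lt (by fun_prop) continuousAt_const (by simpa using hb)
  obtain ⟨ηA, hηA, hA1, hA2, hA3⟩ := pick ((small 4 ηl hηl).and ((small 1 η₁ hη₁).and
    (small (2 * d * (d + 1) ^ 2) (1 / 4) (by norm_num))))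
  obtain ⟨σ, hσ, hnear⟩ := near_I' hd1 hηA
  obtain ⟨ε, hε, hε1, hε2⟩ := pick ((small 2 σ hσ).and (small ((d + 1) ^ 2) (1 / 4) (by norm_num)))
  have hε3 : ε ≤ 1 / 4 := by nlinarith
  obtain ⟨ηc, hηc, hc1⟩ := pick (small (8 * d ^ 2) (ε / 4) (by positivity))
  obtain ⟨m, hm1, hm⟩ := compact_step' (η₂ := ηc / 2) (by positivity) hloc
  have e5 : ∀ᶠ s : ℝ in 𝓝 0, ((1 + 2 * s) / (1 - 2 * s)) ^ d < m := by
    refine ContinuousAt.eventually_lt ?_ continuousAt_const (by simpa using hm1)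
    refine ContinuousAt.pow (ContinuousAt.div (by fun_prop) (by fun_prop) (by norm_num)) _
  obtain ⟨s, hs, hs1, hs2, hs3, hs4, hs5⟩ := pick ((small 4 ε hε).and ((small 8 ηl hηl).and
    ((small 4 ηc hηc).and ((small 2 ηA hηA).and e5))))
  have hs14 : s ≤ 1 / 4 := by linarith
  refine ⟨ε, s, hε, hε3, hs, hs14, fun g hg => ?_⟩
  have hN := hg.isN hd1 hε.le hs.le (by linarith)
  have h1s : 0 < 1 - 2 * s := by linarith
  have hR : ∀ B : Matrix (Fin d) (Fin d) ℝ, B.det ≠ 0 → Adm g B → |B.det| ≤ (1 + 2 * s) ^ d →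
      ∃ Z : Matrix (Fin d) (Fin d) ℤ, IsUnit Z.det ∧ Near ηA (B * Z.map (fun k : ℤ => (k : ℝ))) ∧
        Near ηc (B * Z.map (fun k : ℤ => (k : ℝ))) := by
    intro B hB hadm hdet
    obtain ⟨Z, hZ, hZn⟩ := hnear B hB (by
      intro z hz hK
      refine hg.not_mem hs hs14 (hadm z hz) (K_sub_Ce hε.le h1s.le (K_mono ?_ hK))
      nlinarith [mul_pos hε hs]) (hdet.trans (by gcongr; linarith))
    refine ⟨Z, hZ, hZn, ?_⟩
    set B' := B * Z.map (fun k : ℤ => (k : ℝ)) with hB'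
    have hadm' : Adm g B' := adm_mul hadm hZ
    have hRA : Cons ((1 - 2 * s)⁻¹ • B') :=
      stepC hd hε.le hs.le hs14 hηA.le (by nlinarith) hZn
        fun z hz => hg.not_mem hs hs14 (hadm' z hz)
    have hinv : (1 - 2 * s)⁻¹ ≤ 2 := by
      rw [inv_le_comm₀ h1s (by norm_num)]
      linarith
    have hinv0 : 0 < (1 - 2 * s)⁻¹ := inv_pos.2 h1s
    have hnl : Near ηl ((1 - 2 * s)⁻¹ • B') := by
      intro i j
      have h1 : ((1 - 2 * s)⁻¹ • B') i j - (1 : Matrix (Fin d) (Fin d) ℝ) i j =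
          (1 - 2 * s)⁻¹ * ((B' i j - (1 : Matrix (Fin d) (Fin d) ℝ) i j) +
            2 * s * (1 : Matrix (Fin d) (Fin d) ℝ) i j) := by
        rw [Matrix.smul_apply, smul_eq_mul]
        field_simp
        ring
      rw [h1, abs_mul, abs_of_pos hinv0]
      have h2 : |(B' i j - (1 : Matrix (Fin d) (Fin d) ℝ) i j) +
            2 * s * (1 : Matrix (Fin d) (Fin d) ℝ) i j| ≤ ηl / 4 + ηl / 4 := by
        calc _ ≤ |B' i j - (1 : Matrix (Fin d) (Fin d) ℝ) i j| +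
              |2 * s * (1 : Matrix (Fin d) (Fin d) ℝ) i j| := abs_add_le _ _
          _ ≤ _ := by
              rw [abs_mul, abs_of_pos (by positivity : 0 < 2 * s)]
              have h3 := hZn i j
              have h4 := one_entry i j
              have h5 : 2 * s * |(1 : Matrix (Fin d) (Fin d) ℝ) i j| ≤ 2 * s * 1 := by gcongr
              linarith
      calc (1 - 2 * s)⁻¹ * _ ≤ 2 * (ηl / 4 + ηl / 4) := by gcongr
        _ ≤ ηl := by linarith
    have hdet' : ((1 - 2 * s)⁻¹ • B').det ≤ m := by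
      rw [Matrix.det_smul, Fintype.card_fin]
      have h1 : |B'.det| = |B.det| := abs_det_mul hZ
      have h2 : B'.det ≤ (1 + 2 * s) ^ d := by
        calc B'.det ≤ |B'.det| := le_abs_self _
          _ = |B.det| := h1
          _ ≤ _ := hdet
      calc (1 - 2 * s)⁻¹ ^ d * B'.det ≤ (1 - 2 * s)⁻¹ ^ d * (1 + 2 * s) ^ d := by gcongr
        _ = ((1 + 2 * s) / (1 - 2 * s)) ^ d := by
            rw [← mul_pow]; congr 1; field_simp
        _ ≤ m := hs5.le
    have hfin := hm _ hnl hRA hdet'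
    intro i j
    have h1 : B' i j - (1 : Matrix (Fin d) (Fin d) ℝ) i j =
        (1 - 2 * s) * (((1 - 2 * s)⁻¹ • B') i j - (1 : Matrix (Fin d) (Fin d) ℝ) i j) -
          2 * s * (1 : Matrix (Fin d) (Fin d) ℝ) i j := by
      rw [Matrix.smul_apply, smul_eq_mul]
      field_simp
      ring
    rw [h1]
    calc |(1 - 2 * s) * (((1 - 2 * s)⁻¹ • B') i j - (1 : Matrix (Fin d) (Fin d) ℝ) i j) -
          2 * s * (1 : Matrix (Fin d) (Fin d) ℝ) i j|
        ≤ |(1 - 2 * s) * (((1 - 2 * s)⁻¹ • B') i j - (1 : Matrix (Fin d) (Fin d) ℝ) i j)| +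
          |2 * s * (1 : Matrix (Fin d) (Fin d) ℝ) i j| := abs_sub _ _
      _ ≤ 1 * (ηc / 2) + 2 * s * 1 := by
          rw [abs_mul, abs_mul (2 * s), abs_of_pos h1s, abs_of_pos (by positivity : 0 < 2 * s)]
          have h3 := hfin i j
          have h4 := one_entry i j
          gcongr
          linarith
      _ ≤ ηc := by linarith
  have hIadm := adm_one' hg hε.le hs
  have hIdet : ((1 + 2 * s) • (1 : Matrix (Fin d) (Fin d) ℝ)).det = (1 + 2 * s) ^ d := by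
    rw [Matrix.det_smul, Matrix.det_one, Fintype.card_fin, mul_one]
  have hIdet0 : ((1 + 2 * s) • (1 : Matrix (Fin d) (Fin d) ℝ)).det ≠ 0 := by
    rw [hIdet]; positivity
  constructor
  · set S : Set (Fin d → Fin d → ℝ) := {M | Near ηA (Matrix.of M)} ∩ {M | Adm g (Matrix.of M)}
      with hS
    have hSc : IsCompact S := by
      rw [Metric.isCompact_iff_isClosed_bounded]
      refine ⟨(isClosed_near ηA).inter ?_, (isBounded_near ηA).subset Set.inter_subset_left⟩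
      have : {M : Fin d → Fin d → ℝ | Adm g (Matrix.of M)} = ⋂ (z : Fin d → ℤ), ⋂ (_ : z ≠ 0),
          {M | 1 ≤ g (Matrix.of M *ᵥ cast z)} := by
        ext M; simp [Adm]
      rw [this]
      refine isClosed_iInter fun z => isClosed_iInter fun _ => ?_
      exact isClosed_le continuous_const (hg.cont.comp (continuous_mulVec_of _))
    have hIS : (fun i j => ((1 + 2 * s) • (1 : Matrix (Fin d) (Fin d) ℝ)) i j) ∈ S := by
      refine ⟨?_, hIadm⟩
      intro i j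
      have h1 : (Matrix.of fun i j => ((1 + 2 * s) • (1 : Matrix (Fin d) (Fin d) ℝ)) i j) i j -
          (1 : Matrix (Fin d) (Fin d) ℝ) i j = 2 * s * (1 : Matrix (Fin d) (Fin d) ℝ) i j := by
        rw [Matrix.of_apply, Matrix.smul_apply, smul_eq_mul]; ring
      rw [h1, abs_mul, abs_of_pos (by positivity : 0 < 2 * s)]
      have h2 := one_entry i j
      calc 2 * s * |(1 : Matrix (Fin d) (Fin d) ℝ) i j| ≤ 2 * s * 1 := by gcongr
        _ ≤ ηA := by linarith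
    obtain ⟨M₀, hM₀, hmin⟩ := hSc.exists_isMinOn ⟨_, hIS⟩ continuous_det_of.continuousOn
    have hpos : ∀ B : Matrix (Fin d) (Fin d) ℝ, Near ηA B → 0 < B.det := by
      intro B hB
      have := abs_le.1 (hdetn B (fun i j => (hB i j).trans (by linarith)))
      linarith [this.1]
    have hM₀pos := hpos _ hM₀.1
    refine ⟨Matrix.of M₀, isDens_of_min' hN hd1 hM₀pos.ne' hM₀.2 ?_⟩
    intro B' hB' hadm'
    rw [abs_of_pos hM₀pos]
    rcases le_or_gt |B'.det| ((1 + 2 * s) ^ d) with h | h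
    · obtain ⟨Z, hZ, hZn, -⟩ := hR B' hB' hadm' h
      have h1 := abs_det_mul (B := B') hZ
      have h2 : (fun i j => (B' * Z.map (fun k : ℤ => (k : ℝ))) i j) ∈ S :=
        ⟨hZn, adm_mul hadm' hZ⟩
      have h3 : (Matrix.of M₀).det ≤ (B' * Z.map (fun k : ℤ => (k : ℝ))).det := hmin h2
      rw [← h1]
      exact h3.trans (le_abs_self _)
    · have h3 : (Matrix.of M₀).det ≤ ((1 + 2 * s) • (1 : Matrix (Fin d) (Fin d) ℝ)).det :=
        hmin hIS
      rw [hIdet] at h3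
      linarith
  · intro B hB
    have hlam := minN_pos' hN hd1 hB.1
    refine ⟨hlam, ?_⟩
    set lam := minN g B with hlamdef
    have hdet1 : |(lam⁻¹ • B).det| ≤ (1 + 2 * s) ^ d := by
      have := dens_det_le' hN hd1 hB hIdet0 hIadm
      rwa [hIdet, abs_of_pos (by positivity : (0:ℝ) < (1 + 2 * s) ^ d)] at this
    have hdet0 : (lam⁻¹ • B).det ≠ 0 := by
      rw [Matrix.det_smul]
      exact mul_ne_zero (pow_ne_zero _ (inv_ne_zero hlam.ne')) hB.1
    obtain ⟨Z, hZ, -, hZc⟩ := hR _ hdet0 (adm_normalise' hN hd1 hB.1) hdet1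
    refine ⟨Z, hZ, fun z hz => ?_⟩
    have h1 := stepD hd hodd hg hε (by linarith) hs.le (by linarith) hηc.le hc1.le hZc hz
    rw [mulVec_map, Matrix.smul_mulVec, hg.smul _ _ (inv_nonneg.2 hlam.le),
      le_inv_mul_iff₀ hlam] at h1
    linarith

end Pool.Agent.H338Z.Perm
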