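import Mathlib
import Pool.Agent.H338Z.Perm.Main
import Pool.Agent.H338Z.Perm.Defs
import Pool.Agent.Results.MP_2a19ed_co.AdCut

set_option autoImplicit false

namespace Pool.Agent.H338Z.Perm

open Matrix MeasureTheory TopologicalSpace Topology Pool.Agent.Helper876 Pool.Agent.H338Z.Pack
open scoped Pointwise

variable {d : ℕ}

lemma Ce_closed (ε r : ℝ) : IsClosed (Ce d ε r) := by
  have : Ce d ε r = ⋂ S, {x | psi S x ≤ cf ε S * r * w S} := by ext x; simp [Ce]
  rw [this]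
  exact isClosed_iInter fun S => isClosed_le (psi_continuous S) continuous_const

lemma Ce_compact {ε : ℝ} (hε : 0 ≤ ε) : IsCompact (Ce d ε 1) := by
  rw [Metric.isCompact_iff_isClosed_bounded]
  refine ⟨Ce_closed ε 1, (Metric.isBounded_closedBall (x := (0 : Fin d → ℝ)) (r := 1 * d)).subset ?_⟩
  intro x hx
  rw [mem_closedBall_zero_iff]
  exact K_norm (Ce_sub_K hε zero_le_one hx)

lemma Ce_convex (ε r : ℝ) : Convex ℝ (Ce d ε r) := by
  intro x hx y hy a b ha hb hab S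
  rw [psi_add, psi_smul, psi_smul]
  have h1 := mul_le_mul_of_nonneg_left (hx S) ha
  have h2 := mul_le_mul_of_nonneg_left (hy S) hb
  have h3 : a * (cf ε S * r * w S) + b * (cf ε S * r * w S) = cf ε S * r * w S := by
    rw [← add_mul, hab, one_mul]
  linarith

lemma Ce_symm {ε r : ℝ} {x : Fin d → ℝ} (hx : x ∈ Ce d ε r) : -x ∈ Ce d ε r := by
  intro S
  have := hx Sᶜ
  rwa [psi_compl, cf_compl, w_compl, ← psi_neg] at this

lemma small_mem_Ce {ε : ℝ} (hε0 : 0 ≤ ε) (hε : ε ≤ 1 / 4) {x : Fin d → ℝ} (hx : ‖x‖ ≤ 1 / 4) :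
    x ∈ Ce d ε 1 :=
  K_sub_Ce hε0 zero_le_one (mem_K_of_norm (by linarith))

/-- the cut permutohedron as a convex body -/
noncomputable def cutPerm (d : ℕ) {ε : ℝ} (hε0 : 0 ≤ ε) (hε : ε ≤ 1 / 4) : ConvexBody (E d) where
  carrier := {x | WithLp.ofLp x ∈ Ce d ε 1}
  convex' := by
    intro x hx y hy a b ha hb hab
    exact Ce_convex ε 1 hx hy ha hb hab
  isCompact' := by
    have h : {x : E d | WithLp.ofLp x ∈ Ce d ε 1} =
        (fun x : Fin d → ℝ => (WithLp.toLp 2 x : E d)) '' Ce d ε 1 := by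
      ext x
      constructor
      · intro hx; exact ⟨WithLp.ofLp x, hx, rfl⟩
      · rintro ⟨y, hy, rfl⟩; exact hy
    rw [h]
    exact (Ce_compact hε0).image (PiLp.continuous_toLp 2 _)
  nonempty' := ⟨0, small_mem_Ce hε0 hε (by
    have : WithLp.ofLp (0 : E d) = (0 : Fin d → ℝ) := rfl
    rw [this, norm_zero]; norm_num)⟩

lemma not_preconnected (hd : 1 ≤ d) (C : Bodies d) (hnhds : (C.1 : Set (E d)) ∈ 𝓝 (0 : E d))
    {B : Matrix (Fin d) (Fin d) ℝ} {κ : ℝ} (hκ : 0 < κ) (hlam : 0 < minimum C B)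
    {Z : Matrix (Fin d) (Fin d) ℤ} (hZ : IsUnit Z.det)
    (h : ∀ z : Fin d → ℤ, Odd (∑ i, z i) → (1 + κ) * minimum C B ≤
      gauge (C.1 : Set (E d)) (WithLp.toLp 2 (B *ᵥ cast (Z *ᵥ z)))) :
    ¬ IsPreconnected (packingUnion C B) := by
  set lam := minimum C B with hlamdef
  set G : E d → ℝ := gauge (C.1 : Set (E d)) with hG
  have hGc : Continuous G := continuous_gauge C.1.convex hnhds
  have habs : Absorbent ℝ (C.1 : Set (E d)) := absorbent_nhds_zero hnhds
  let L : (Fin d → ℤ) → E d := fun z => WithLp.toLp 2 (B *ᵥ cast (Z *ᵥ z))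
  have hLsub : ∀ z z', L (z - z') = L z - L z' := by
    intro z z'
    simp only [L, Matrix.mulVec_sub, cast_sub]
    rfl
  have hLmem : ∀ z, L z ∈ lattice B := fun z => ⟨Z *ᵥ z, rfl⟩
  have hLsurj : ∀ l ∈ lattice B, ∃ z, l = L z := by
    rintro _ ⟨z, rfl⟩
    refine ⟨Z⁻¹ *ᵥ z, ?_⟩
    simp only [L]
    rw [Matrix.mulVec_mulVec, Matrix.mul_nonsing_inv _ hZ, Matrix.one_mulVec]
    rfl
  let U : Prop → Set (E d) := fun p =>
    ⋃ z : {z : Fin d → ℤ // Odd (∑ i, z i) ↔ p}, {x | G (x - L z.1) < (1 + κ) * lam / 2}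
  have hUo : ∀ p, IsOpen (U p) := fun p =>
    isOpen_iUnion fun z => isOpen_lt (hGc.comp (by fun_prop)) continuous_const
  have h0C : (0 : E d) ∈ (C.1 : Set (E d)) := mem_of_mem_nhds hnhds
  have hin : ∀ z, ∀ c ∈ (C.1 : Set (E d)), G ((lam / 2) • c + L z - L z) < (1 + κ) * lam / 2 := by
    intro z c hc
    rw [add_sub_cancel_right, hG, gauge_smul_of_nonneg (by positivity), smul_eq_mul]
    have := gauge_le_one_of_mem hc
    nlinarith [mul_pos hκ hlam]
  intro hpre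
  have hcov : packingUnion C B ⊆ U True ∪ U False := by
    rintro _ ⟨l, hl, c, hc, rfl⟩
    obtain ⟨z, rfl⟩ := hLsurj l hl
    by_cases hz : Odd (∑ i, z i)
    · exact Or.inl (Set.mem_iUnion.2 ⟨⟨z, by simp [hz]⟩, hin z c hc⟩)
    · exact Or.inr (Set.mem_iUnion.2 ⟨⟨z, by simp [hz]⟩, hin z c hc⟩)
  have hne : ∀ p (z : {z : Fin d → ℤ // Odd (∑ i, z i) ↔ p}), (packingUnion C B ∩ U p).Nonempty :=
    fun p z => ⟨(lam / 2) • (0 : E d) + L z.1, ⟨_, hLmem _, 0, h0C, rfl⟩,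
      Set.mem_iUnion.2 ⟨z, hin z.1 0 h0C⟩⟩
  obtain ⟨x, -, hx1, hx2⟩ := hpre _ _ (hUo True) (hUo False) hcov
    (hne True ⟨Pi.single ⟨0, hd⟩ 1, by simp⟩) (hne False ⟨0, by simp⟩)
  obtain ⟨⟨z, hz⟩, hxz⟩ := Set.mem_iUnion.1 hx1
  obtain ⟨⟨z', hz'⟩, hxz'⟩ := Set.mem_iUnion.1 hx2
  have hodd : Odd (∑ i, (z - z') i) := by
    simp only [Pi.sub_apply, Finset.sum_sub_distrib]
    exact (hz.2 trivial).sub_even (Int.not_odd_iff_even.1 fun h => hz'.1 h)
  have h1 : (1 + κ) * lam ≤ G (L (z - z')) := h _ hodd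
  have h2 : L (z - z') = (x - L z') + -(x - L z) := by rw [hLsub]; abel
  have h3 := gauge_add_le C.1.convex habs (x - L z') (-(x - L z))
  rw [gauge_neg C.2.1] at h3
  have h4 : G (x - L z) < (1 + κ) * lam / 2 := hxz
  have h5 : G (x - L z') < (1 + κ) * lam / 2 := hxz'
  rw [h2] at h1
  linarith

theorem final (hd : 5 ≤ d) (hodd : Odd d) :
    ¬ IsMeagre {C : Bodies d | (∃ B, IsDensest C B) ∧
      ∀ B, IsDensest C B → ¬ IsPreconnected (packingUnion C B)} := by
  classical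
  obtain ⟨ε, s, hε0, hε1, hs0, hs1, hmain⟩ := abstract_main' (d := d) (by omega) hodd
  set C₀ : ConvexBody (E d) := cutPerm d hε0.le hε1 with hC₀
  have hmemC₀ : ∀ x : E d, x ∈ (C₀ : Set (E d)) ↔ WithLp.ofLp x ∈ Ce d ε 1 := fun x => Iff.rfl
  have hball : Metric.closedBall (0 : E d) (1 / 4) ⊆ (C₀ : Set (E d)) := by
    intro x hx
    rw [mem_closedBall_zero_iff] at hx
    rw [hmemC₀]
    exact small_mem_Ce hε0.le hε1
      ((Pool.Agent.Results.MP_2a19ed_co.AdCut.norm_ofLp_le x).trans hx)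
  have hr0 : (0 : ℝ) < 1 / 4 := by norm_num
  have hsymm₀ : ∀ x ∈ (C₀ : Set (E d)), -x ∈ (C₀ : Set (E d)) := by
    intro x hx
    rw [hmemC₀] at *
    exact Ce_symm hx
  have hint₀ : (interior (C₀ : Set (E d))).Nonempty :=
    ⟨0, interior_mono (Metric.ball_subset_closedBall.trans hball) (by
      rw [Metric.isOpen_ball.interior_eq]; exact Metric.mem_ball_self hr0)⟩
  let X₀ : Bodies d := ⟨C₀, hsymm₀, hint₀⟩
  have : BaireSpace (Bodies d) := baireSymBody (V := E d)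
  have hopen := not_isMeagre_of_isOpen (Metric.isOpen_ball (x := X₀) (ε := s * (1 / 4)))
    ⟨X₀, Metric.mem_ball_self (by positivity)⟩
  intro hcon
  apply hopen
  refine IsMeagre.mono ?_ hcon
  intro C hC
  have hdist : dist C₀ C.1 < s * (1 / 4) := by
    rw [Metric.mem_ball, dist_comm] at hC
    exact hC
  obtain ⟨hin, hout⟩ := near hball hr0 hs0 (by linarith) hdist
  have h1s : 0 < 1 - s := by linarith
  have hnhds : (C.1 : Set (E d)) ∈ 𝓝 (0 : E d) := by
    have h1 : Metric.closedBall (0 : E d) ((1 - s) * (1 / 4)) ⊆ (C.1 : Set (E d)) := by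
      intro x hx
      apply hin
      refine ⟨(1 - s)⁻¹ • x, hball ?_, ?_⟩
      · rw [mem_closedBall_zero_iff] at hx ⊢
        rw [norm_smul, norm_inv, Real.norm_of_nonneg h1s.le, inv_mul_le_iff₀ h1s]
        exact hx
      · simp only
        rw [smul_smul, mul_inv_cancel₀ h1s.ne', one_smul]
    exact Filter.mem_of_superset (Metric.closedBall_mem_nhds _ (by positivity)) h1
  have hG : IsG' d ε s (fun x => gauge (C.1 : Set (E d)) (WithLp.toLp 2 x)) := by
    refine ⟨?_, fun x => gauge_nonneg _, ?_, ?_, ?_⟩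
    · intro c x hc
      show gauge (C.1 : Set (E d)) (WithLp.toLp 2 (c • x)) = c * gauge _ (WithLp.toLp 2 x)
      rw [WithLp.toLp_smul, gauge_smul_of_nonneg hc, smul_eq_mul]
    · exact (continuous_gauge C.1.convex hnhds).comp (PiLp.continuous_toLp 2 _)
    · intro x hx
      apply gauge_le_one_of_mem
      apply hin
      refine ⟨(1 - s)⁻¹ • WithLp.toLp 2 x, ?_, ?_⟩
      · rw [hmemC₀]
        have h2 := Ce_smul (inv_nonneg.2 h1s.le) hx
        rw [inv_mul_cancel₀ h1s.ne'] at h2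
        exact h2
      · simp only
        rw [smul_smul, mul_inv_cancel₀ h1s.ne', one_smul]
    · intro x hx
      have h1 : (WithLp.toLp 2 x : E d) ∈ (C.1 : Set (E d)) := by
        have := (gauge_le_one_iff_mem_closure C.1.convex hnhds (x := (WithLp.toLp 2 x : E d))).1 hx
        rwa [C.1.isClosed.closure_eq] at this
      obtain ⟨y, hy, hyx⟩ := hout h1
      rw [hmemC₀] at hy
      have h2 := Ce_smul (by linarith : (0:ℝ) ≤ 1 + s) hy
      rw [mul_one] at h2
      have h3 : x = (1 + s) • (WithLp.ofLp y : Fin d → ℝ) := by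
        have := congrArg (WithLp.ofLp (p := 2)) hyx
        simpa using this.symm
      rw [h3]
      exact h2
  obtain ⟨⟨B₀, hB₀⟩, hall⟩ := hmain _ hG
  have hiff : ∀ B, IsDensest C B ↔
      IsDens (fun x => gauge (C.1 : Set (E d)) (WithLp.toLp 2 x)) B := fun B =>
    Pool.Agent.Results.MP_2a19ed_co.AdCut.isDensest_iff C B
  refine ⟨⟨B₀, (hiff B₀).2 hB₀⟩, fun B hB => ?_⟩
  obtain ⟨hlam, Z, hZ, hz⟩ := hall B ((hiff B).1 hB)
  have hmin : minimum C B = minN (fun x => gauge (C.1 : Set (E d)) (WithLp.toLp 2 x)) B :=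
    Pool.Agent.Results.MP_2a19ed_co.AdCut.minimum_eq C hB.1
  rw [← hmin] at hlam hz
  exact not_preconnected (by omega) C hnhds (κ := ε / 4) (by positivity) hlam hZ hz

end Pool.Agent.H338Z.Perm
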